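import Mathlib

set_option autoImplicit false

/-! Random rankings of three colours: a separation argument. -/

namespace Pool.Agent.Helper12.LP3

open Finset

/-- Suppose that for every ranking `σ` of three colours a probability vector `m σ` gives the top
colour probability at least `1/3` and the bottom colour probability at most `1/3`. Then some
random ranking gives all three colours probability `1/3`. -/
theorem exists_lambda (m : Equiv.Perm (Fin 3) → Fin 3 → ℝ) (hsum : ∀ σ, ∑ i, m σ i = 1)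
    (htop : ∀ σ : Equiv.Perm (Fin 3), 1 / 3 ≤ m σ (σ 0))
    (hbot : ∀ σ : Equiv.Perm (Fin 3), m σ (σ 2) ≤ 1 / 3) :
    ∃ l : Equiv.Perm (Fin 3) → ℝ, (∀ σ, 0 ≤ l σ) ∧ ∑ σ, l σ = 1 ∧
      ∀ i, ∑ σ, l σ * m σ i = 1 / 3 := by
  by_contra hcon
  push Not at hcon
  -- the convex set of all achievable marginals
  let F : (Equiv.Perm (Fin 3) → ℝ) →L[ℝ] (Fin 3 → ℝ) :=
    LinearMap.toContinuousLinearMap
      { toFun := fun l i => ∑ σ, l σ * m σ i
        map_add' := by
          intro a b; ext i
          simp only [Pi.add_apply, add_mul, Finset.sum_add_distrib]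
        map_smul' := by
          intro a b; ext i
          simp only [Pi.smul_apply, smul_eq_mul, RingHom.id_apply, Finset.mul_sum, mul_assoc] }
  have hF : ∀ l i, F l i = ∑ σ, l σ * m σ i := fun _ _ => rfl
  set C : Set (Fin 3 → ℝ) := F '' (stdSimplex ℝ (Equiv.Perm (Fin 3))) with hC
  have hconv : Convex ℝ C := (convex_stdSimplex ℝ _).linear_image F.toLinearMap
  have hcomp : IsCompact C := (isCompact_stdSimplex ℝ _).image F.continuous
  have hq : (fun _ : Fin 3 => (1 / 3 : ℝ)) ∉ C := by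
    rintro ⟨l, ⟨h1, h2⟩, h3⟩
    obtain ⟨i, hi⟩ := hcon l h1 h2
    apply hi
    rw [← hF, h3]
  obtain ⟨f, u, hfu, hfb⟩ := geometric_hahn_banach_point_closed hconv hcomp.isClosed hq
  -- sort the coefficients of `f`
  set a : Fin 3 → ℝ := fun i => f (Pi.single i 1) with ha
  have hf : ∀ y : Fin 3 → ℝ, f y = ∑ i, y i * a i := by
    intro y
    have : y = ∑ i, y i • (Pi.single i (1 : ℝ) : Fin 3 → ℝ) := by
      ext j
      simp [Finset.sum_apply, Pi.single_apply]
    conv_lhs => rw [this]
    rw [map_sum]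
    refine Finset.sum_congr rfl fun i _ => ?_
    rw [map_smul, smul_eq_mul]
  set σ := Tuple.sort a with hσ
  have hmono : Monotone (a ∘ σ) := Tuple.monotone_sort a
  have h01 : a (σ 0) ≤ a (σ 1) := hmono (by decide : (0 : Fin 3) ≤ 1)
  have h12 : a (σ 1) ≤ a (σ 2) := hmono (by decide : (1 : Fin 3) ≤ 2)
  have hmem : m σ ∈ C := by
    refine ⟨Pi.single σ 1, ⟨?_, ?_⟩, ?_⟩
    · intro τ
      by_cases h : τ = σ
      · subst h; simp
      · simp [h]
    · simp
    · ext i
      rw [hF]
      simp [Pi.single_apply]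
  have h1 := hfb _ hmem
  have hre : ∀ g : Fin 3 → ℝ, ∑ i, g i = g (σ 0) + g (σ 1) + g (σ 2) := by
    intro g
    rw [← Equiv.sum_comp σ g, Fin.sum_univ_three]
  rw [hf, hre] at h1
  rw [hf, hre] at hfu
  have hs := hsum σ
  rw [hre] at hs
  have ht := htop σ
  have hb := hbot σ
  have hs' : m σ (σ 1) = 1 - m σ (σ 0) - m σ (σ 2) := by linarith
  rw [hs'] at h1
  nlinarith [mul_nonneg (sub_nonneg.mpr h01) (sub_nonneg.mpr ht),
    mul_nonneg (sub_nonneg.mpr h12) (sub_nonneg.mpr hb)]

end Pool.Agent.Helper12.LP3
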