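import Mathlib
import Pool.Agent.Helper12.LP.Rank

set_option autoImplicit false

/-! Random list colourings built vertex by vertex. -/

namespace Pool.Agent.Helper12.LP3

open Finset

variable {n : ℕ}

/-- the earlier neighbours of a vertex -/
def early (H : SimpleGraph (Fin n)) (r : Fin n → ℕ) (v : Fin n) : Set (Fin n) :=
  {u | H.Adj v u ∧ r u < r v}

/-- the pairs `w, w'` (with `w'` later) for which the crossing inequality is maintained -/
def GoodPair (H : SimpleGraph (Fin n)) (r : Fin n → ℕ) (w w' : Fin n) : Prop :=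
  (early H r w').ncard ≤ 1 ∨ ∀ u, H.Adj w' u → r u < r w' → H.Adj w u

/-- a random list colouring of the vertices of rank less than `k` -/
structure Law (H : SimpleGraph (Fin n)) (r : Fin n → ℕ) (L : Fin n → Finset ℕ) (k : ℕ) where
  Ω : Type
  fin : Fintype Ω
  p : Ω → ℝ
  c : Ω → Fin n → ℕ
  pos : ∀ ω, 0 ≤ p ω
  one : ∑ ω, p ω = 1
  mem : ∀ ω v, p ω ≠ 0 → r v < k → c ω v ∈ L v
  proper : ∀ ω u v, p ω ≠ 0 → r u < k → r v < k → H.Adj u v → c ω u ≠ c ω v
  unif : ∀ v, r v < k → ∀ x ∈ L v, ∑ ω, (if c ω v = x then p ω else 0) = 1 / 3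
  pair : ∀ w w', r w < r w' → r w' < k → GoodPair H r w w' → ∀ x y, x ≠ y →
    ∑ ω, (if c ω w = x ∧ c ω w' = y then p ω else 0) +
      ∑ ω, (if c ω w = y ∧ c ω w' = x then p ω else 0) ≤ 1 / 3

attribute [instance] Law.fin

namespace Law

variable {H : SimpleGraph (Fin n)} {r : Fin n → ℕ} {L : Fin n → Finset ℕ} {k : ℕ}

/-- no colours chosen yet -/
def init (H : SimpleGraph (Fin n)) (r : Fin n → ℕ) (L : Fin n → Finset ℕ) : Law H r L 0 where
  Ω := Unit
  fin := inferInstance
  p := fun _ => 1
  c := fun _ _ => 0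
  pos := fun _ => zero_le_one
  one := by simp
  mem := fun _ _ _ h => absurd h (Nat.not_lt_zero _)
  proper := fun _ _ _ _ h => absurd h (Nat.not_lt_zero _)
  unif := fun _ h => absurd h (Nat.not_lt_zero _)
  pair := fun _ _ _ h => absurd h (Nat.not_lt_zero _)

lemma sum_zero_of_notMem (D : Law H r L k) {v : Fin n} (hv : r v < k) {x : ℕ} (hx : x ∉ L v)
    (f : D.Ω → ℝ) (hf : ∀ ω, f ω ≠ 0 → D.p ω ≠ 0 ∧ D.c ω v = x) : ∑ ω, f ω = 0 := by
  refine Finset.sum_eq_zero fun ω _ => ?_
  by_contra h
  obtain ⟨h1, h2⟩ := hf ω h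
  exact hx (h2 ▸ D.mem ω v h1 hv)

lemma unif_le (D : Law H r L k) {v : Fin n} (hv : r v < k) (x : ℕ) :
    ∑ ω, (if D.c ω v = x then D.p ω else 0) ≤ 1 / 3 := by
  by_cases hx : x ∈ L v
  · rw [D.unif v hv x hx]
  · rw [D.sum_zero_of_notMem hv hx _ (fun ω h => ?_)]
    · norm_num
    · by_cases h1 : D.c ω v = x
      · rw [if_pos h1] at h; exact ⟨h, h1⟩
      · rw [if_neg h1] at h; exact absurd rfl h

/-- nothing to do -/
def skip (D : Law H r L k) (hk : ∀ v, r v ≠ k) : Law H r L (k + 1) where
  Ω := D.Ω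
  fin := D.fin
  p := D.p
  c := D.c
  pos := D.pos
  one := D.one
  mem := fun ω v h hv => D.mem ω v h (by have := hk v; omega)
  proper := fun ω u v h hu hv => D.proper ω u v h (by have := hk u; omega) (by have := hk v; omega)
  unif := fun v hv => D.unif v (by have := hk v; omega)
  pair := fun w w' h hw' => D.pair w w' h (by have := hk w'; omega)

/-- colour one more vertex with the help of a kernel -/
theorem step (D : Law H r L k) (hr : Function.Injective r) (v : Fin n) (hv : r v = k)
    (K : D.Ω → ℕ → ℝ) (hK0 : ∀ ω x, 0 ≤ K ω x) (hK1 : ∀ ω, ∑ x ∈ L v, K ω x = 1)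
    (hKp : ∀ ω, ∀ x ∈ L v, D.p ω ≠ 0 → K ω x ≠ 0 → ∀ u, H.Adj v u → r u < k → D.c ω u ≠ x)
    (hKu : ∀ x ∈ L v, ∑ ω, D.p ω * K ω x = 1 / 3)
    (hKg : ∀ w, r w < k → GoodPair H r w v → ∀ x ∈ L v, ∀ y ∈ L v, x ≠ y →
      ∑ ω, (if D.c ω w = x then D.p ω * K ω y else 0) +
        ∑ ω, (if D.c ω w = y then D.p ω * K ω x else 0) ≤ 1 / 3) :
    Nonempty (Law H r L (k + 1)) := by
  classical
  -- sums over the product space
  have hsum : ∀ f : D.Ω → ℕ → ℝ, ∑ q : D.Ω × {x // x ∈ L v}, f q.1 q.2 =
      ∑ ω, ∑ x ∈ L v, f ω x := by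
    intro f
    rw [Fintype.sum_prod_type]
    refine Finset.sum_congr rfl fun ω _ => ?_
    exact Finset.sum_coe_sort (L v) (fun x => f ω x)
  have hold : ∀ (P : D.Ω → Prop) [DecidablePred P],
      ∑ q : D.Ω × {x // x ∈ L v}, (if P q.1 then D.p q.1 * K q.1 q.2 else 0) =
      ∑ ω, (if P ω then D.p ω else 0) := by
    intro P _
    rw [hsum (fun ω x => if P ω then D.p ω * K ω x else 0)]
    refine Finset.sum_congr rfl fun ω _ => ?_
    split_ifs
    · rw [← Finset.mul_sum, hK1, mul_one]
    · simp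
  have hnew : ∀ (P : D.Ω → Prop) [DecidablePred P] (y : ℕ), y ∈ L v →
      ∑ q : D.Ω × {x // x ∈ L v}, (if P q.1 ∧ (q.2 : ℕ) = y then D.p q.1 * K q.1 q.2 else 0) =
      ∑ ω, (if P ω then D.p ω * K ω y else 0) := by
    intro P _ y hy
    rw [hsum (fun ω x => if P ω ∧ x = y then D.p ω * K ω x else 0)]
    refine Finset.sum_congr rfl fun ω _ => ?_
    by_cases hP : P ω
    · simp only [hP, true_and, if_true]
      rw [Finset.sum_ite_eq' (L v) y]
      simp [hy]
    · simp [hP]
  have hnew0 : ∀ (P : D.Ω → Prop) [DecidablePred P] (y : ℕ), y ∉ L v →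
      ∑ q : D.Ω × {x // x ∈ L v}, (if P q.1 ∧ (q.2 : ℕ) = y then D.p q.1 * K q.1 q.2 else 0) =
      0 := by
    intro P _ y hy
    refine Finset.sum_eq_zero fun q _ => ?_
    rw [if_neg]
    rintro ⟨-, h⟩
    exact hy (h ▸ q.2.2)
  have hlt : ∀ {u : Fin n}, r u < k + 1 → u ≠ v → r u < k := by
    intro u h1 h2
    have : r u ≠ k := fun h => h2 (hr (h.trans hv.symm))
    omega
  have hne : ∀ {u : Fin n}, r u < k → u ≠ v := by
    rintro u h rfl; omega
  have hcu : ∀ (q : D.Ω × {x // x ∈ L v}) (u : Fin n), u ≠ v →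
      Function.update (D.c q.1) v (q.2 : ℕ) u = D.c q.1 u := by
    intro q u hu
    rw [Function.update_of_ne hu]
  refine ⟨⟨D.Ω × {x // x ∈ L v}, inferInstance, fun q => D.p q.1 * K q.1 q.2,
    fun q => Function.update (D.c q.1) v (q.2 : ℕ), ?_, ?_, ?_, ?_, ?_, ?_⟩⟩
  · intro q; exact mul_nonneg (D.pos _) (hK0 _ _)
  · have := hold (fun _ => True)
    simp only [if_true] at this
    rw [this, D.one]
  · intro q u hq hu
    by_cases huv : u = v
    · subst huv
      simp only [Function.update_self]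
      exact q.2.2
    · simp only [hcu q u huv]
      exact D.mem _ _ (left_ne_zero_of_mul hq) (hlt hu huv)
  · intro q u w hq hu hw hadj
    have hp := left_ne_zero_of_mul hq
    have hk := right_ne_zero_of_mul hq
    by_cases huv : u = v
    · subst huv
      have hwu : w ≠ u := hadj.ne'
      simp only [Function.update_self, hcu q w hwu]
      exact (hKp q.1 q.2 q.2.2 hp hk w hadj (hlt hw hwu)).symm
    · by_cases hwv : w = v
      · subst hwv
        simp only [Function.update_self, hcu q u huv]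
        exact hKp q.1 q.2 q.2.2 hp hk u hadj.symm (hlt hu huv)
      · simp only [hcu q u huv, hcu q w hwv]
        exact D.proper _ _ _ hp (hlt hu huv) (hlt hw hwv) hadj
  · intro u hu x hx
    by_cases huv : u = v
    · subst huv
      simp only [Function.update_self]
      have := hnew (fun _ => True) x hx
      simp only [true_and, if_true] at this
      rw [this]
      exact hKu x hx
    · simp only [hcu _ u huv]
      rw [hold (fun ω => D.c ω u = x)]
      exact D.unif u (hlt hu huv) x hx
  · intro w w' hww hw' hg x y hxy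
    by_cases hwv : w' = v
    · subst hwv
      have hw : r w < k := by omega
      have hwne : w ≠ w' := hne hw
      simp only [Function.update_self, hcu _ w hwne]
      by_cases hx : x ∈ L w'
      · by_cases hy : y ∈ L w'
        · rw [hnew (fun ω => D.c ω w = x) y hy, hnew (fun ω => D.c ω w = y) x hx]
          exact hKg w hw hg x hx y hy hxy
        · rw [hnew0 (fun ω => D.c ω w = x) y hy, hnew (fun ω => D.c ω w = y) x hx, zero_add]
          calc ∑ ω, (if D.c ω w = y then D.p ω * K ω x else 0)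
              ≤ ∑ ω, D.p ω * K ω x := by
                refine Finset.sum_le_sum fun ω _ => ?_
                split_ifs
                · exact le_rfl
                · exact mul_nonneg (D.pos _) (hK0 _ _)
            _ = 1 / 3 := hKu x hx
      · rw [hnew0 (fun ω => D.c ω w = y) x hx, add_zero]
        by_cases hy : y ∈ L w'
        · rw [hnew (fun ω => D.c ω w = x) y hy]
          calc ∑ ω, (if D.c ω w = x then D.p ω * K ω y else 0)
              ≤ ∑ ω, D.p ω * K ω y := by
                refine Finset.sum_le_sum fun ω _ => ?_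
                split_ifs
                · exact le_rfl
                · exact mul_nonneg (D.pos _) (hK0 _ _)
            _ = 1 / 3 := hKu y hy
        · rw [hnew0 (fun ω => D.c ω w = x) y hy]
          norm_num
    · have hw'k := hlt hw' hwv
      have hwne : w ≠ v := hne (by omega)
      simp only [hcu _ w hwne, hcu _ w' hwv]
      rw [hold (fun ω => D.c ω w = x ∧ D.c ω w' = y), hold (fun ω => D.c ω w = y ∧ D.c ω w' = x)]
      exact D.pair w w' hww hw'k hg x y hxy

end Law

end Pool.Agent.Helper12.LP3
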