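import Mathlib
import Pool.Agent.Helper12.LP.Law

set_option autoImplicit false

/-! The two kernels: at most one earlier neighbour, and two earlier neighbours. -/

namespace Pool.Agent.Helper12.LP3

open Finset

variable {n : ℕ}

namespace Law

variable {H : SimpleGraph (Fin n)} {r : Fin n → ℕ} {L : Fin n → Finset ℕ} {k : ℕ}

/-- a kernel with all values at most `1/2` is always fine -/
theorem step_half (D : Law H r L k) (hr : Function.Injective r) (v : Fin n) (hv : r v = k)
    (K : D.Ω → ℕ → ℝ) (hK0 : ∀ ω x, 0 ≤ K ω x) (hK1 : ∀ ω, ∑ x ∈ L v, K ω x = 1)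
    (hKp : ∀ ω, ∀ x ∈ L v, D.p ω ≠ 0 → K ω x ≠ 0 → ∀ u, H.Adj v u → r u < k → D.c ω u ≠ x)
    (hKu : ∀ x ∈ L v, ∑ ω, D.p ω * K ω x = 1 / 3) (hh : ∀ ω x, K ω x ≤ 1 / 2) :
    Nonempty (Law H r L (k + 1)) := by
  refine D.step hr v hv K hK0 hK1 hKp hKu ?_
  intro w hw _ x _ y _ _
  have h1 : ∀ a b : ℕ, ∑ ω, (if D.c ω w = a then D.p ω * K ω b else 0) ≤ 1 / 6 := by
    intro a b
    calc ∑ ω, (if D.c ω w = a then D.p ω * K ω b else 0)
        ≤ ∑ ω, (if D.c ω w = a then D.p ω else 0) * (1 / 2) := by
          refine Finset.sum_le_sum fun ω _ => ?_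
          split_ifs
          · exact mul_le_mul_of_nonneg_left (hh _ _) (D.pos _)
          · simp
      _ = (∑ ω, (if D.c ω w = a then D.p ω else 0)) * (1 / 2) := by rw [Finset.sum_mul]
      _ ≤ 1 / 3 * (1 / 2) := mul_le_mul_of_nonneg_right (D.unif_le hw a) (by norm_num)
      _ = 1 / 6 := by norm_num
  linarith [h1 x y, h1 y x]

/-- no earlier neighbour -/
theorem step_zero (D : Law H r L k) (hr : Function.Injective r) (v : Fin n) (hv : r v = k)
    (hL : (L v).card = 3) (h0 : ∀ u, H.Adj v u → ¬ r u < k) :
    Nonempty (Law H r L (k + 1)) := by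
  refine D.step_half hr v hv (fun _ _ => 1 / 3) (fun _ _ => by norm_num) ?_ ?_ ?_ ?_
  · intro ω
    rw [Finset.sum_const, hL]
    norm_num
  · intro ω x _ _ _ u hu hk
    exact absurd hk (h0 u hu)
  · intro x _
    rw [← Finset.sum_mul, D.one, one_mul]
  · intro _ _; norm_num

/-- one earlier neighbour -/
theorem step_one (D : Law H r L k) (hr : Function.Injective r) (v : Fin n) (hv : r v = k)
    (hL : ∀ v, (L v).card = 3) (u : Fin n) (hu : r u < k)
    (h0 : ∀ w, H.Adj v w → r w < k → w = u) :
    Nonempty (Law H r L (k + 1)) := by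
  classical
  set j : ℝ := ((L v ∩ L u).card : ℝ) with hj
  set t : ℕ → ℝ := fun x => if x ∈ L u then 1 else 0 with ht
  have hjt : ∑ x ∈ L v, t x = j := by
    rw [hj, ht, Finset.sum_boole, Finset.filter_mem_eq_inter]
  have hj3 : (L v ∩ L u).card ≤ 3 := (Finset.card_le_card Finset.inter_subset_left).trans (hL v).le
  have hj3' : j ≤ 3 := by rw [hj]; exact_mod_cast hj3
  have hj0 : 0 ≤ j := by rw [hj]; positivity
  have ht0 : ∀ x, 0 ≤ t x := fun x => by simp only [ht]; split_ifs <;> norm_num
  have ht1 : ∀ x, t x ≤ 1 := fun x => by simp only [ht]; split_ifs <;> norm_num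
  have hcases : j = 3 ∨ j ≤ 2 := by
    have : (L v ∩ L u).card = 3 ∨ (L v ∩ L u).card ≤ 2 := by omega
    rcases this with h | h
    · left; rw [hj, h]; norm_num
    · right; rw [hj]; exact_mod_cast h
  set κ : ℕ → ℝ := fun x => if j = 3 then 1 / 3 else (2 - j + t x) / (2 * (3 - j)) with hκ
  have hκ0 : ∀ x, 0 ≤ κ x := by
    intro x
    simp only [hκ]
    split_ifs with h
    · norm_num
    · have : j ≤ 2 := hcases.resolve_left h
      have := ht0 x
      apply div_nonneg <;> linarith
  have hκh : ∀ x, κ x ≤ 1 / 2 := by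
    intro x
    simp only [hκ]
    split_ifs with h
    · norm_num
    · have h2 : j ≤ 2 := hcases.resolve_left h
      rw [div_le_iff₀ (by linarith)]
      have := ht1 x
      linarith
  have hκ1 : ∑ x ∈ L v, κ x = 1 := by
    simp only [hκ]
    split_ifs with h
    · rw [Finset.sum_const, hL v]; norm_num
    · have h2 : j ≤ 2 := hcases.resolve_left h
      rw [← Finset.sum_div, Finset.sum_add_distrib, hjt, Finset.sum_const, hL v]
      rw [div_eq_one_iff_eq (by linarith)]
      simp only [nsmul_eq_mul, Nat.cast_ofNat]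
      ring
  set K : D.Ω → ℕ → ℝ := fun ω x =>
    if D.c ω u ∈ L v then (if x = D.c ω u then 0 else 1 / 2) else κ x with hK
  refine D.step_half hr v hv K ?_ ?_ ?_ ?_ ?_
  · intro ω x
    simp only [hK]
    split_ifs
    · exact le_rfl
    · norm_num
    · exact hκ0 x
  · intro ω
    simp only [hK]
    split_ifs with h
    · rw [← Finset.sum_erase_add _ _ h]
      simp only [if_true, add_zero]
      rw [Finset.sum_congr rfl (g := fun _ => (1 / 2 : ℝ)) (fun x hx => by
        rw [if_neg (Finset.ne_of_mem_erase hx)])]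
      rw [Finset.sum_const, Finset.card_erase_of_mem h, hL v]
      norm_num
    · exact hκ1
  · intro ω x hx hp hk w hw hwk
    have hwu := h0 w hw hwk
    subst hwu
    rintro rfl
    apply hk
    change (if D.c ω w ∈ L v then (if D.c ω w = D.c ω w then (0 : ℝ) else 1 / 2) else κ _) = 0
    rw [if_pos hx, if_pos rfl]
  · intro x hx
    -- the marginals of `u` on the colours of `v`
    have hq : ∀ z, ∑ ω, (if D.c ω u = z then D.p ω else 0) = t z / 3 := by
      intro z
      simp only [ht]
      split_ifs with h
      · exact D.unif u hu z h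
      · rw [D.sum_zero_of_notMem hu h _ (fun ω h' => ?_)]
        · norm_num
        · by_cases h1 : D.c ω u = z
          · rw [if_pos h1] at h'; exact ⟨h', h1⟩
          · rw [if_neg h1] at h'; exact absurd rfl h'
    have hform : ∀ ω, D.p ω * K ω x =
        ∑ z ∈ L v, (if D.c ω u = z then D.p ω else 0) * ((if x = z then 0 else 1 / 2) - κ x) +
          D.p ω * κ x := by
      intro ω
      simp only [hK]
      by_cases h : D.c ω u ∈ L v
      · rw [if_pos h]
        rw [Finset.sum_eq_single_of_mem _ h]
        · rw [if_pos rfl]; ring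
        · intro b _ hb
          rw [if_neg (Ne.symm hb)]; ring
      · rw [if_neg h, Finset.sum_eq_zero]
        · ring
        · intro z hz
          have hne : D.c ω u ≠ z := by rintro rfl; exact h hz
          rw [if_neg hne]; ring
    simp only [hform]
    rw [Finset.sum_add_distrib, Finset.sum_comm, ← Finset.sum_mul, D.one, one_mul]
    simp only [← Finset.sum_mul, hq]
    have h1 : ∑ z ∈ L v, t z / 3 * ((if x = z then 0 else 1 / 2) - κ x) =
        (j - t x) / 6 - j / 3 * κ x := by
      have h2 : ∀ z ∈ L v, t z / 3 * ((if x = z then 0 else 1 / 2) - κ x) =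
          t z / 6 - (if x = z then t z / 6 else 0) - t z / 3 * κ x := by
        intro z _
        split_ifs <;> ring
      rw [Finset.sum_congr rfl h2, Finset.sum_sub_distrib, Finset.sum_sub_distrib,
        Finset.sum_ite_eq (L v) x, if_pos hx, ← Finset.sum_mul, ← Finset.sum_div,
        ← Finset.sum_div, hjt]
      ring
    rw [h1]
    simp only [hκ]
    split_ifs with h
    · have htx : t x = 1 := by
        have hcard : (L v ∩ L u).card = 3 := by
          have : j = 3 := h
          rw [hj] at this
          exact_mod_cast this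
        have : L v ∩ L u = L v := Finset.eq_of_subset_of_card_le Finset.inter_subset_left
          (by rw [hcard, hL v])
        simp only [ht]
        rw [if_pos]
        rw [← this] at hx
        exact (Finset.mem_inter.mp hx).2
      rw [htx, h]; norm_num
    · have h2 : j ≤ 2 := hcases.resolve_left h
      have h3 : (3 - j) ≠ 0 := by intro h4; apply h; linarith
      field_simp
      ring
  · intro ω x
    simp only [hK]
    split_ifs
    · norm_num
    · exact le_rfl
    · exact hκh x

lemma fin3_cases (a b : Fin 3) (h : a < b) : a = 0 ∨ (a = 1 ∧ b = 2) := by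
  revert a b; decide

/-- the top available colour of a ranking `a, b, d` when two colours are blocked -/
def top3 (a b d B₀ B₁ : ℕ) : ℕ :=
  if a ≠ B₀ ∧ a ≠ B₁ then a else if b ≠ B₀ ∧ b ≠ B₁ then b else d

/-- two earlier neighbours -/
theorem step_two (D : Law H r L k) (hr : Function.Injective r) (v : Fin n) (hv : r v = k)
    (hL : ∀ v, (L v).card = 3) (w₀ w₁ : Fin n) (h0 : r w₀ < r w₁) (h1 : r w₁ < k)
    (ha0 : H.Adj v w₀) (ha1 : H.Adj v w₁)
    (hE : ∀ w, H.Adj v w → r w < k → w = w₀ ∨ w = w₁) (hgood : GoodPair H r w₀ w₁) :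
    Nonempty (Law H r L (k + 1)) := by
  classical
  have hw0 : r w₀ < k := h0.trans h1
  -- an enumeration of the list
  obtain ⟨e⟩ : Nonempty (Fin 3 ≃ {x // x ∈ L v}) := by
    refine ⟨(Fintype.equivFinOfCardEq ?_).symm⟩
    rw [Fintype.card_coe, hL v]
  set E : Fin 3 → ℕ := fun i => (e i : ℕ) with hEdef
  have hEinj : Function.Injective E := fun i j h => e.injective (Subtype.ext h)
  have hEmem : ∀ i, E i ∈ L v := fun i => (e i).2
  have hEsurj : ∀ x ∈ L v, ∃ i, E i = x := fun x hx => ⟨e.symm ⟨x, hx⟩, by simp [hEdef]⟩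
  -- the chosen colour
  set T : Equiv.Perm (Fin 3) → D.Ω → ℕ := fun σ ω =>
    top3 (E (σ 0)) (E (σ 1)) (E (σ 2)) (D.c ω w₀) (D.c ω w₁) with hT
  have hTmem : ∀ σ ω, T σ ω ∈ L v := by
    intro σ ω
    simp only [hT, top3]
    split_ifs <;> exact hEmem _
  have hσ3 : ∀ σ : Equiv.Perm (Fin 3), ∀ i, i = σ 0 ∨ i = σ 1 ∨ i = σ 2 := by
    intro σ i
    obtain ⟨j, rfl⟩ := σ.surjective i
    fin_cases j <;> simp
  have hE01 : ∀ σ : Equiv.Perm (Fin 3), E (σ 0) ≠ E (σ 1) := fun σ h => by
    have := σ.injective (hEinj h); exact absurd this (by decide)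
  have hE02 : ∀ σ : Equiv.Perm (Fin 3), E (σ 0) ≠ E (σ 2) := fun σ h => by
    have := σ.injective (hEinj h); exact absurd this (by decide)
  have hE12 : ∀ σ : Equiv.Perm (Fin 3), E (σ 1) ≠ E (σ 2) := fun σ h => by
    have := σ.injective (hEinj h); exact absurd this (by decide)
  set m : Equiv.Perm (Fin 3) → Fin 3 → ℝ := fun σ i =>
    ∑ ω, (if T σ ω = E i then D.p ω else 0) with hm
  have hsum : ∀ σ, ∑ i, m σ i = 1 := by
    intro σ
    simp only [hm]
    rw [Finset.sum_comm, ← D.one]
    refine Finset.sum_congr rfl fun ω _ => ?_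
    obtain ⟨i, hi⟩ := hEsurj _ (hTmem σ ω)
    rw [Finset.sum_eq_single i]
    · rw [if_pos hi.symm]
    · intro j _ hj
      rw [if_neg]
      intro h
      exact hj (hEinj (by rw [← h, hi]))
    · intro h; exact absurd (Finset.mem_univ _) h
  have htop : ∀ σ : Equiv.Perm (Fin 3), 1 / 3 ≤ m σ (σ 0) := by
    intro σ
    have hb0 := D.unif_le hw0 (E (σ 0))
    have hb1 := D.unif_le h1 (E (σ 0))
    have hle : ∑ ω, D.p ω ≤ m σ (σ 0) + ∑ ω, (if D.c ω w₀ = E (σ 0) then D.p ω else 0) +
        ∑ ω, (if D.c ω w₁ = E (σ 0) then D.p ω else 0) := by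
      simp only [hm]
      rw [← Finset.sum_add_distrib, ← Finset.sum_add_distrib]
      refine Finset.sum_le_sum fun ω _ => ?_
      have hp := D.pos ω
      by_cases g0 : D.c ω w₀ = E (σ 0)
      · rw [if_pos g0]; split_ifs <;> linarith
      · by_cases g1 : D.c ω w₁ = E (σ 0)
        · rw [if_pos g1]; split_ifs <;> linarith
        · have : T σ ω = E (σ 0) := by
            simp only [hT, top3]
            rw [if_pos ⟨Ne.symm g0, Ne.symm g1⟩]
          rw [if_pos this, if_neg g0, if_neg g1]; linarith
    rw [D.one] at hle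
    linarith
  have hbot : ∀ σ : Equiv.Perm (Fin 3), m σ (σ 2) ≤ 1 / 3 := by
    intro σ
    refine le_trans ?_ (D.pair w₀ w₁ h0 h1 hgood (E (σ 0)) (E (σ 1)) (hE01 σ))
    simp only [hm]
    rw [← Finset.sum_add_distrib]
    refine Finset.sum_le_sum fun ω _ => ?_
    have hp := D.pos ω
    by_cases g : T σ ω = E (σ 2)
    · rw [if_pos g]
      simp only [hT, top3] at g
      have n1 : ¬ (E (σ 0) ≠ D.c ω w₀ ∧ E (σ 0) ≠ D.c ω w₁) := by
        intro h; rw [if_pos h] at g; exact hE02 σ g
      rw [if_neg n1] at g
      have n2 : ¬ (E (σ 1) ≠ D.c ω w₀ ∧ E (σ 1) ≠ D.c ω w₁) := by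
        intro h; rw [if_pos h] at g; exact hE12 σ g
      by_cases q0 : D.c ω w₀ = E (σ 0)
      · have q1 : D.c ω w₁ = E (σ 1) := by
          by_contra hne
          apply n2
          exact ⟨by rw [q0]; exact (hE01 σ).symm, Ne.symm hne⟩
        rw [if_pos ⟨q0, q1⟩]
        split_ifs <;> linarith
      · have q1 : D.c ω w₁ = E (σ 0) := by
          by_contra hne
          exact n1 ⟨Ne.symm q0, Ne.symm hne⟩
        have q2 : D.c ω w₀ = E (σ 1) := by
          by_contra hne
          apply n2
          exact ⟨Ne.symm hne, by rw [q1]; exact (hE01 σ).symm⟩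
        rw [if_pos (⟨q2, q1⟩ : D.c ω w₀ = E (σ 1) ∧ D.c ω w₁ = E (σ 0))]
        split_ifs <;> linarith
    · rw [if_neg g]
      split_ifs <;> linarith
  obtain ⟨l, hl0, hl1, hlm⟩ := exists_lambda m hsum htop hbot
  set K : D.Ω → ℕ → ℝ := fun ω x => ∑ σ, (if T σ ω = x then l σ else 0) with hK
  have hK0 : ∀ ω x, 0 ≤ K ω x := by
    intro ω x
    refine Finset.sum_nonneg fun σ _ => ?_
    split_ifs
    · exact hl0 σ
    · exact le_rfl
  refine D.step hr v hv K hK0 ?_ ?_ ?_ ?_
  · intro ω
    simp only [hK]
    rw [Finset.sum_comm, ← hl1]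
    refine Finset.sum_congr rfl fun σ _ => ?_
    rw [Finset.sum_ite_eq (L v) (T σ ω), if_pos (hTmem σ ω)]
  · intro ω x hx hp hk u hu huk hcu
    obtain ⟨σ, -, hσ⟩ := Finset.exists_ne_zero_of_sum_ne_zero hk
    have hTx : T σ ω = x := by
      by_contra h; rw [if_neg h] at hσ; exact hσ rfl
    have hB : T σ ω ≠ D.c ω w₀ ∧ T σ ω ≠ D.c ω w₁ := by
      simp only [hT, top3]
      split_ifs with g0 g1
      · exact g0
      · exact g1
      · -- both better colours are blocked
        by_cases q0 : D.c ω w₀ = E (σ 0)
        · have q1 : D.c ω w₁ = E (σ 1) := by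
            by_contra hne
            apply g1
            exact ⟨by rw [q0]; exact (hE01 σ).symm, Ne.symm hne⟩
          rw [q0, q1]
          exact ⟨(hE02 σ).symm, (hE12 σ).symm⟩
        · have q1 : D.c ω w₁ = E (σ 0) := by
            by_contra hne
            exact g0 ⟨Ne.symm q0, Ne.symm hne⟩
          have q2 : D.c ω w₀ = E (σ 1) := by
            by_contra hne
            apply g1
            exact ⟨Ne.symm hne, by rw [q1]; exact (hE01 σ).symm⟩
          rw [q1, q2]
          exact ⟨(hE12 σ).symm, (hE02 σ).symm⟩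
    rw [hTx] at hB
    rcases hE u hu huk with rfl | rfl
    · exact hB.1 hcu.symm
    · exact hB.2 hcu.symm
  · intro x hx
    obtain ⟨i, rfl⟩ := hEsurj x hx
    have := hlm i
    simp only [hm] at this
    rw [← this]
    simp only [hK, Finset.mul_sum]
    rw [Finset.sum_comm]
    refine Finset.sum_congr rfl fun σ _ => Finset.sum_congr rfl fun ω _ => ?_
    split_ifs <;> ring
  · intro w hw hgw x hx y hy hxy
    obtain ⟨i, rfl⟩ := hEsurj x hx
    obtain ⟨j, rfl⟩ := hEsurj y hy
    have hij : i ≠ j := fun h => hxy (by rw [h])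
    -- `w` is adjacent to both earlier neighbours
    have hadj : H.Adj w w₀ ∧ H.Adj w w₁ := by
      rcases hgw with h | h
      · exfalso
        have hsub : ({w₀, w₁} : Set (Fin n)) ⊆ early H r v := by
          intro z hz
          rcases hz with rfl | rfl
          · exact ⟨ha0, by omega⟩
          · exact ⟨ha1, by omega⟩
        have hne : w₀ ≠ w₁ := by rintro rfl; omega
        have h2 := Set.ncard_le_ncard hsub (Set.toFinite _)
        rw [Set.ncard_pair hne] at h2
        omega
      · exact ⟨h w₀ ha0 (by omega), h w₁ ha1 (by omega)⟩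
    -- the probability that `b` is ranked before `a`
    set Q : Fin 3 → Fin 3 → ℝ := fun a b => ∑ σ, (if σ.symm b < σ.symm a then l σ else 0) with hQ
    have hQ1 : Q i j + Q j i = 1 := by
      simp only [hQ]
      rw [← Finset.sum_add_distrib, ← hl1]
      refine Finset.sum_congr rfl fun σ _ => ?_
      have hne : σ.symm i ≠ σ.symm j := fun h => hij (σ.symm.injective h)
      rcases lt_or_gt_of_ne hne with h | h
      · rw [if_neg (not_lt.mpr h.le), if_pos h, zero_add]
      · rw [if_pos h, if_neg (not_lt.mpr (le_of_lt h)), add_zero]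
    have hQ0 : ∀ a b, 0 ≤ Q a b := by
      intro a b
      refine Finset.sum_nonneg fun σ _ => ?_
      split_ifs
      · exact hl0 σ
      · exact le_rfl
    have key : ∀ a b : Fin 3, a ≠ b →
        ∑ ω, (if D.c ω w = E a then D.p ω * K ω (E b) else 0) ≤ 1 / 3 * Q a b := by
      intro a b hab
      calc ∑ ω, (if D.c ω w = E a then D.p ω * K ω (E b) else 0)
          ≤ ∑ ω, (if D.c ω w = E a then D.p ω else 0) * Q a b := by
            refine Finset.sum_le_sum fun ω _ => ?_
            by_cases hc : D.c ω w = E a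
            · rw [if_pos hc, if_pos hc]
              by_cases hp : D.p ω = 0
              · rw [hp, zero_mul, zero_mul]
              · refine mul_le_mul_of_nonneg_left ?_ (D.pos ω)
                have hav0 : E a ≠ D.c ω w₀ := by
                  rw [← hc]; exact D.proper ω w w₀ hp hw hw0 hadj.1
                have hav1 : E a ≠ D.c ω w₁ := by
                  rw [← hc]; exact D.proper ω w w₁ hp hw h1 hadj.2
                simp only [hK, hQ]
                refine Finset.sum_le_sum fun σ _ => ?_
                by_cases hTb : T σ ω = E b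
                · rw [if_pos hTb]
                  have hlt : σ.symm b < σ.symm a := by
                    by_contra hnot
                    have hne : σ.symm a ≠ σ.symm b := fun h => hab (σ.symm.injective h)
                    have hlt : σ.symm a < σ.symm b := lt_of_le_of_ne (not_lt.mp hnot) hne
                    obtain ⟨a', rfl⟩ := σ.surjective a
                    obtain ⟨b', rfl⟩ := σ.surjective b
                    simp only [Equiv.symm_apply_apply] at hlt
                    simp only [hT, top3] at hTb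
                    have hcase := fin3_cases a' b' hlt
                    rcases hcase with rfl | ⟨rfl, rfl⟩
                    · rw [if_pos ⟨hav0, hav1⟩] at hTb
                      have := σ.injective (hEinj hTb)
                      subst this
                      exact lt_irrefl _ hlt
                    · split_ifs at hTb with g0 g1
                      · exact hE02 σ hTb
                      · exact hE12 σ hTb
                      · exact g1 ⟨hav0, hav1⟩
                  rw [if_pos hlt]
                · rw [if_neg hTb]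
                  split_ifs
                  · exact hl0 σ
                  · exact le_rfl
            · rw [if_neg hc, if_neg hc, zero_mul]
        _ = (∑ ω, (if D.c ω w = E a then D.p ω else 0)) * Q a b := by rw [Finset.sum_mul]
        _ ≤ 1 / 3 * Q a b := mul_le_mul_of_nonneg_right (D.unif_le hw _) (hQ0 a b)
    have k1 := key i j hij
    have k2 := key j i hij.symm
    nlinarith [k1, k2, hQ1]

end Law

end Pool.Agent.Helper12.LP3
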