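import Mathlib

set_option autoImplicit false

namespace Pool.Agent.Helper12.LP

variable {V C ι : Type*}

/-- **Consistent labels along a forest.** `R u v` is a partial matching between the colours at
`u` and the colours at `v` (for list colouring: equality). If `F` is a forest, the colours of
every list can be labelled bijectively by `ι` such that matched colours at adjacent vertices of
`F` have the same label. -/
theorem exists_labels [Finite V] [Fintype ι] (R : V → V → C → C → Prop)
    (hsymm : ∀ u v x y, R u v x y → R v u y x)
    (hR : ∀ u v x y y', R u v x y → R u v x y' → y = y')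
    (L : V → Finset C) (hL : ∀ v, (L v).card = Fintype.card ι)
    (F : SimpleGraph V) (hF : F.IsAcyclic) :
    ∃ e : V → ι → C, (∀ v, Function.Injective (e v)) ∧ (∀ v i, e v i ∈ L v) ∧
      ∀ u v, F.Adj u v → ∀ i j, R u v (e u i) (e v j) → i = j := by
  classical
  suffices H : ∀ n : ℕ, ∀ F : SimpleGraph V, F.IsAcyclic → F.edgeSet.ncard = n →
      ∃ e : V → ι → C, (∀ v, Function.Injective (e v)) ∧ (∀ v i, e v i ∈ L v) ∧
      ∀ u v, F.Adj u v → ∀ i j, R u v (e u i) (e v j) → i = j from H _ F hF rfl
  intro n
  induction n using Nat.strong_induction_on with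
  | _ n ih =>
    intro F hF hn
    by_cases hE : ∃ u v, F.Adj u v
    · obtain ⟨u, v, huv⟩ := hE
      set F' := F.deleteEdges {s(u, v)} with hF'
      have hF'le : F' ≤ F := SimpleGraph.deleteEdges_le _
      have hF'ac : F'.IsAcyclic := hF.anti hF'le
      have hlt : F'.edgeSet.ncard < n := by
        rw [← hn]
        apply Set.ncard_lt_ncard _ (Set.toFinite _)
        refine ⟨SimpleGraph.edgeSet_mono hF'le, fun h => ?_⟩
        have h1 : s(u, v) ∈ F'.edgeSet := h (by simpa using huv)
        rw [hF'] at h1
        simp at h1
      obtain ⟨e', hinj, hmem, hadj⟩ := ih _ hlt F' hF'ac rfl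
      have hnr : ¬ F'.Reachable u v :=
        (SimpleGraph.isAcyclic_iff_forall_adj_isBridge.mp hF) huv
      -- the partial matching between labels
      let s : Finset ι := Finset.univ.filter (fun j => ∃ i, R u v (e' u i) (e' v j))
      let f : ι → ι := fun j => if h : ∃ i, R u v (e' u i) (e' v j) then h.choose else j
      have hf : ∀ i j, R u v (e' u i) (e' v j) → f j = i := by
        intro i j hij
        have h : ∃ i, R u v (e' u i) (e' v j) := ⟨i, hij⟩
        have h1 : R u v (e' u (f j)) (e' v j) := by
          simp only [f, dif_pos h]
          exact h.choose_spec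
        exact hinj u (hR v u _ _ _ (hsymm _ _ _ _ h1) (hsymm _ _ _ _ hij))
      have hfinj : Set.InjOn f (s : Set ι) := by
        intro j hj j' hj' hjj
        obtain ⟨i, hi⟩ := (Finset.mem_filter.mp (Finset.mem_coe.mp hj)).2
        obtain ⟨i', hi'⟩ := (Finset.mem_filter.mp (Finset.mem_coe.mp hj')).2
        have h1 := hf _ _ hi
        have h2 := hf _ _ hi'
        have h3 : i = i' := by rw [← h1, ← h2, hjj]
        subst h3
        exact hinj v (hR u v _ _ _ hi hi')
      obtain ⟨g, hg⟩ := Finset.exists_equiv_extend_of_card_eq (t := (Finset.univ : Finset ι))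
        (by simp) (s := s) (f := f) (Finset.subset_univ _) hfinj
      let σ : ι ≃ ι := g.trans (Equiv.subtypeUnivEquiv (fun x => Finset.mem_univ x))
      have hσ : ∀ i j, R u v (e' u i) (e' v j) → σ j = i := by
        intro i j hij
        have h1 : j ∈ s := Finset.mem_filter.mpr ⟨Finset.mem_univ _, ⟨i, hij⟩⟩
        have h2 := hg j h1
        have h3 : σ j = f j := h2
        rw [h3]
        exact hf i j hij
      refine ⟨fun w i => if F'.Reachable v w then e' w (σ.symm i) else e' w i, ?_, ?_, ?_⟩
      · intro w i j hij
        by_cases hw : F'.Reachable v w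
        · simp only [hw, if_true] at hij
          exact σ.symm.injective (hinj w hij)
        · simp only [hw, if_false] at hij
          exact hinj w hij
      · intro w i
        by_cases hw : F'.Reachable v w
        · simp only [hw, if_true]; exact hmem _ _
        · simp only [hw, if_false]; exact hmem _ _
      · intro a b hab i j hij
        have hvv : F'.Reachable v v := SimpleGraph.Reachable.refl _
        have hvu : ¬ F'.Reachable v u := fun h => hnr h.symm
        by_cases hs : s(a, b) = s(u, v)
        · rw [Sym2.eq_iff] at hs
          rcases hs with ⟨rfl, rfl⟩ | ⟨rfl, rfl⟩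
          · simp only [hvv, hvu, if_true, if_false] at hij
            have h := hσ _ _ hij
            simpa using h.symm
          · simp only [hvv, hvu, if_true, if_false] at hij
            have h := hσ _ _ (hsymm _ _ _ _ hij)
            simpa using h
        · have hab' : F'.Adj a b := by
            rw [hF', SimpleGraph.deleteEdges_adj]
            exact ⟨hab, by simpa using hs⟩
          by_cases ha : F'.Reachable v a
          · have hb : F'.Reachable v b := ha.trans hab'.reachable
            simp only [ha, hb, if_true] at hij
            exact σ.symm.injective (hadj a b hab' _ _ hij)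
          · have hb : ¬ F'.Reachable v b := fun hb => ha (hb.trans hab'.symm.reachable)
            simp only [ha, hb, if_false] at hij
            exact hadj a b hab' _ _ hij
    · push Not at hE
      have hcard : ∀ v, Fintype.card ι = Fintype.card {x // x ∈ L v} := by
        intro v; rw [Fintype.card_coe, hL]
      refine ⟨fun v i => (Fintype.equivOfCardEq (hcard v) i : C), ?_, ?_, ?_⟩
      · intro v i j hij
        exact (Fintype.equivOfCardEq (hcard v)).injective (Subtype.ext hij)
      · intro v i
        exact (Fintype.equivOfCardEq (hcard v) i).2
      · intro u v huv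
        exact absurd huv (hE u v)

/-- **Packing theorem for unions of forests** (correspondence version): if `F 0, …, F (a-1)` are
forests and every list has `2 ^ a` colours, then there are `2 ^ a` colourings, pairwise different
at every vertex, none of which uses matched colours at the ends of an edge of one of the
forests. -/
theorem exists_packing [Finite V] (R : V → V → C → C → Prop)
    (hsymm : ∀ u v x y, R u v x y → R v u y x)
    (hR : ∀ u v x y y', R u v x y → R u v x y' → y = y') (a : ℕ) :
    ∀ (F : Fin a → SimpleGraph V) (_ : ∀ t, (F t).IsAcyclic) (L : V → Finset C)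
      (_ : ∀ v, (L v).card = 2 ^ a),
      ∃ c : Fin (2 ^ a) → V → C, (∀ i v, c i v ∈ L v) ∧
        (∀ v, Function.Injective (fun i => c i v)) ∧
        ∀ t i u v, (F t).Adj u v → ¬ R u v (c i u) (c i v) := by
  classical
  induction a with
  | zero =>
    intro F hF L hL
    have h1 : ∀ v, ∃ x, x ∈ L v := by
      intro v
      have := hL v
      rw [pow_zero] at this
      obtain ⟨x, hx⟩ := Finset.card_eq_one.mp this
      exact ⟨x, by simp [hx]⟩
    choose x hx using h1
    refine ⟨fun _ v => x v, fun _ v => hx v, ?_, fun t => t.elim0⟩
    intro v i j _
    have : Subsingleton (Fin (2 ^ 0)) := by rw [pow_zero]; infer_instance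
    exact Subsingleton.elim _ _
  | succ a ih =>
    intro F hF L hL
    have hcard : ∀ v, (L v).card = Fintype.card (Bool × Fin (2 ^ a)) := by
      intro v
      rw [hL v, Fintype.card_prod, Fintype.card_bool, Fintype.card_fin, pow_succ, mul_comm]
    obtain ⟨e, hinj, hmem, hadj⟩ := exists_labels R hsymm hR L hcard (F 0) (hF 0)
    obtain ⟨col⟩ := (hF 0).colorable_two
    let b : V → Bool := fun v => decide (col v = 0)
    have hb : ∀ u v, (F 0).Adj u v → b u ≠ b v := by
      intro u v huv h
      have h1 := col.valid huv
      simp only [b, decide_eq_decide] at h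
      generalize col u = p at *
      generalize col v = q at *
      revert p q
      decide
    let Q : Bool → V → Finset C := fun β v =>
      Finset.univ.image (fun i : Fin (2 ^ a) => e v (xor β (b v), i))
    have hQ : ∀ β v, (Q β v).card = 2 ^ a := by
      intro β v
      rw [Finset.card_image_of_injective]
      · simp
      · intro i j hij
        have := hinj v hij
        simpa using this
    have IH := fun β => ih (fun t => F t.succ) (fun t => hF t.succ) (Q β) (hQ β)
    choose c hc1 hc2 hc3 using IH
    have hcQ : ∀ β i v, ∃ j, c β i v = e v (xor β (b v), j) := by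
      intro β i v
      have h := hc1 β i v
      simp only [Q, Finset.mem_image] at h
      obtain ⟨j, _, hj⟩ := h
      exact ⟨j, hj.symm⟩
    have hcardE : Fintype.card (Fin (2 ^ (a + 1))) = Fintype.card (Bool × Fin (2 ^ a)) := by
      rw [Fintype.card_prod, Fintype.card_bool, Fintype.card_fin, Fintype.card_fin, pow_succ,
        mul_comm]
    let E := Fintype.equivOfCardEq hcardE
    refine ⟨fun i v => c (E i).1 (E i).2 v, ?_, ?_, ?_⟩
    · intro i v
      obtain ⟨j, hj⟩ := hcQ (E i).1 (E i).2 v
      simp only [hj]
      exact hmem _ _
    · intro v i j hij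
      simp only at hij
      have h1 : (E i).1 = (E j).1 := by
        obtain ⟨k, hk⟩ := hcQ (E i).1 (E i).2 v
        obtain ⟨l, hl⟩ := hcQ (E j).1 (E j).2 v
        rw [hk, hl] at hij
        have := congrArg Prod.fst (hinj v hij)
        simpa using this
      apply E.injective
      apply Prod.ext h1
      rw [h1] at hij
      exact hc2 _ v hij
    · intro t i u v huv hR'
      beta_reduce at hR'
      refine Fin.cases ?_ (fun t => ?_) t (motive := fun t => (F t).Adj u v → False) huv
      · intro huv
        obtain ⟨k, hk⟩ := hcQ (E i).1 (E i).2 u
        obtain ⟨l, hl⟩ := hcQ (E i).1 (E i).2 v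
        rw [hk, hl] at hR'
        have h1 := congrArg Prod.fst (hadj u v huv _ _ hR')
        apply hb u v huv
        simpa using h1
      · intro huv
        exact hc3 _ t _ u v huv hR'

end Pool.Agent.Helper12.LP
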