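import Mathlib
import Pool.Agent.Helper12.LP.Kernel

set_option autoImplicit false

/-! Assembly: random list colourings along an order. -/

namespace Pool.Agent.Helper12.LP3

open Finset

variable {n : ℕ}

theorem exists_law (H : SimpleGraph (Fin n)) (r : Fin n → ℕ) (hr : Function.Injective r)
    (h2 : ∀ v, (early H r v).ncard ≤ 2)
    (hg : ∀ v w w', H.Adj v w → H.Adj v w' → r w < r w' → r w' < r v → GoodPair H r w w')
    (L : Fin n → Finset ℕ) (hL : ∀ v, (L v).card = 3) (k : ℕ) : Nonempty (Law H r L k) := by
  induction k with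
  | zero => exact ⟨Law.init H r L⟩
  | succ k ih =>
    obtain ⟨D⟩ := ih
    by_cases hk : ∃ v, r v = k
    · obtain ⟨v, hv⟩ := hk
      have hmem : ∀ w, H.Adj v w → r w < k → w ∈ early H r v := by
        intro w hw hwk
        exact ⟨hw, by omega⟩
      have hcard := h2 v
      have h3 : (early H r v).ncard = 0 ∨ (early H r v).ncard = 1 ∨
          (early H r v).ncard = 2 := by omega
      rcases h3 with h | h | h
      · rw [Set.ncard_eq_zero (Set.toFinite _)] at h
        refine D.step_zero hr v hv (hL v) ?_
        intro u hu huk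
        have := hmem u hu huk
        rw [h] at this
        exact this
      · obtain ⟨u, hu⟩ := Set.ncard_eq_one.mp h
        have hu1 : u ∈ early H r v := by rw [hu]; exact rfl
        refine D.step_one hr v hv hL u (by have := hu1.2; omega) ?_
        intro w hw hwk
        have := hmem w hw hwk
        rw [hu] at this
        exact this
      · obtain ⟨a, b, hab, hE⟩ := Set.ncard_eq_two.mp h
        have ha : a ∈ early H r v := by rw [hE]; exact Or.inl rfl
        have hb : b ∈ early H r v := by rw [hE]; exact Or.inr rfl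
        have hcov : ∀ w, H.Adj v w → r w < k → w = a ∨ w = b := by
          intro w hw hwk
          have := hmem w hw hwk
          rw [hE] at this
          exact this
        have hne : r a ≠ r b := fun h => hab (hr h)
        rcases lt_or_gt_of_ne hne with hlt | hlt
        · exact D.step_two hr v hv hL a b hlt (by have := hb.2; omega) ha.1 hb.1 hcov
            (hg v a b ha.1 hb.1 hlt hb.2)
        · exact D.step_two hr v hv hL b a hlt (by have := ha.2; omega) hb.1 ha.1
            (fun w hw hwk => (hcov w hw hwk).symm) (hg v b a hb.1 ha.1 hlt ha.2)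
    · push Not at hk
      exact ⟨D.skip hk⟩

/-- the fractional packing in the format of the frozen statement -/
theorem exists_packing (G H : SimpleGraph (Fin n)) (hGH : G ≤ H) (r : Fin n → ℕ)
    (hr : Function.Injective r) (h2 : ∀ v, (early H r v).ncard ≤ 2)
    (hg : ∀ v w w', H.Adj v w → H.Adj v w' → r w < r w' → r w' < r v → GoodPair H r w w')
    (L : Fin n → Finset ℕ) (hL : ∀ v, (L v).card = 3) :
    ∃ (S : Finset (Fin n → ℕ)) (w : (Fin n → ℕ) → ℝ),
      (∀ c ∈ S, 0 ≤ w c ∧ (∀ v, c v ∈ L v) ∧ ∀ u v, G.Adj u v → c u ≠ c v) ∧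
      ∑ c ∈ S, w c = 1 ∧
      ∀ v, ∀ x ∈ L v, ∑ c ∈ S.filter (fun c => c v = x), w c = 1 / 3 := by
  classical
  obtain ⟨D⟩ := exists_law H r hr h2 hg L hL (Finset.univ.sup r + 1)
  have hk : ∀ v, r v < Finset.univ.sup r + 1 := fun v =>
    Nat.lt_succ_of_le (Finset.le_sup (Finset.mem_univ v))
  set S : Finset (Fin n → ℕ) := (Finset.univ.filter fun ω => D.p ω ≠ 0).image D.c with hS
  have key : ∀ (P : (Fin n → ℕ) → Prop) [DecidablePred P],
      ∑ c ∈ S.filter P, ∑ ω, (if D.c ω = c then D.p ω else 0) =
        ∑ ω, (if P (D.c ω) then D.p ω else 0) := by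
    intro P _
    rw [Finset.sum_comm]
    refine Finset.sum_congr rfl fun ω _ => ?_
    rw [Finset.sum_ite_eq (S.filter P) (D.c ω)]
    by_cases hP : P (D.c ω)
    · by_cases hp : D.p ω = 0
      · simp [hp]
      · rw [if_pos, if_pos hP]
        rw [Finset.mem_filter]
        refine ⟨?_, hP⟩
        rw [hS, Finset.mem_image]
        exact ⟨ω, by simp [hp], rfl⟩
    · rw [if_neg hP, if_neg]
      intro h
      exact hP (Finset.mem_filter.mp h).2
  refine ⟨S, fun c => ∑ ω, (if D.c ω = c then D.p ω else 0), ?_, ?_, ?_⟩
  · intro c hc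
    rw [hS, Finset.mem_image] at hc
    obtain ⟨ω, hω, rfl⟩ := hc
    have hp : D.p ω ≠ 0 := by simpa using hω
    refine ⟨?_, ?_, ?_⟩
    · refine Finset.sum_nonneg fun ω' _ => ?_
      split_ifs
      · exact D.pos _
      · exact le_rfl
    · intro v; exact D.mem ω v hp (hk v)
    · intro u v huv; exact D.proper ω u v hp (hk u) (hk v) (hGH huv)
  · have := key (fun _ => True)
    simp only [if_true, D.one, Finset.filter_true] at this
    exact this
  · intro v x hx
    have := key (fun c => c v = x)
    rw [this]
    exact D.unif v (hk v) x hx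

end Pool.Agent.Helper12.LP3
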