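import Mathlib

set_option autoImplicit false

namespace Pool.Agent.Helper12.LP

variable {V : Type*}

/-- The edges of `G` with both ends in `S`. -/
def inside (G : SimpleGraph V) (S : Finset V) : Set (Sym2 V) :=
  {e | e ∈ G.edgeSet ∧ ∀ x ∈ e, x ∈ S}

/-- Every set `S` of at least two vertices spans at most `2 |S| - 3` edges. -/
def Sparse (G : SimpleGraph V) : Prop :=
  ∀ S : Finset V, 2 ≤ S.card → (inside G S).ncard + 3 ≤ 2 * S.card

theorem mem_inside {G : SimpleGraph V} {S : Finset V} {x y : V} :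
    s(x, y) ∈ inside G S ↔ G.Adj x y ∧ x ∈ S ∧ y ∈ S := by
  simp [inside]

theorem inside_inter [DecidableEq V] (G : SimpleGraph V) (S T : Finset V) :
    inside G S ∩ inside G T = inside G (S ∩ T) := by
  ext e
  induction e with
  | _ x y => simp only [Set.mem_inter_iff, mem_inside, Finset.mem_inter]; tauto

theorem inside_union [DecidableEq V] (G : SimpleGraph V) (S T : Finset V) :
    inside G S ∪ inside G T ⊆ inside G (S ∪ T) := by
  intro e
  induction e with
  | _ x y => simp only [Set.mem_union, mem_inside, Finset.mem_union]; tauto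

theorem inside_mono {G H : SimpleGraph V} (h : H ≤ G) (S : Finset V) :
    inside H S ⊆ inside G S := by
  intro e
  induction e with
  | _ x y => simp only [mem_inside]; exact fun hx => ⟨h hx.1, hx.2⟩

section fin
variable [Finite V]

theorem super [DecidableEq V] (G : SimpleGraph V) (S T : Finset V) :
    (inside G S).ncard + (inside G T).ncard ≤
      (inside G (S ∪ T)).ncard + (inside G (S ∩ T)).ncard := by
  rw [← Set.ncard_union_add_ncard_inter (inside G S) (inside G T), inside_inter]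
  exact Nat.add_le_add_right (Set.ncard_le_ncard (inside_union G S T)) _

theorem Sparse.mono {G H : SimpleGraph V} (hG : Sparse G) (h : H ≤ G) : Sparse H := by
  intro S hS
  exact le_trans (Nat.add_le_add_right (Set.ncard_le_ncard (inside_mono h S)) _) (hG S hS)

/-- If adding an edge `xy` destroys sparsity, there is a tight set containing `x` and `y`. -/
theorem exists_tight {H : SimpleGraph V} (hH : Sparse H) {x y : V} (hne : x ≠ y)
    (hn : ¬ (¬ H.Adj x y ∧ Sparse (H ⊔ SimpleGraph.edge x y))) :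
    ∃ S : Finset V, x ∈ S ∧ y ∈ S ∧ 2 ≤ S.card ∧ (inside H S).ncard + 3 = 2 * S.card := by
  classical
  by_cases hadj : H.Adj x y
  · refine ⟨{x, y}, by simp, by simp, by rw [Finset.card_pair hne], ?_⟩
    have h1 : inside H {x, y} = {s(x, y)} := by
      ext e
      induction e with
      | _ p q =>
        simp only [mem_inside, Finset.mem_insert, Finset.mem_singleton, Set.mem_singleton_iff,
          Sym2.eq_iff]
        constructor
        · rintro ⟨h, rfl | rfl, rfl | rfl⟩
          · exact absurd rfl h.ne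
          · exact Or.inl ⟨rfl, rfl⟩
          · exact Or.inr ⟨rfl, rfl⟩
          · exact absurd rfl h.ne
        · rintro (⟨rfl, rfl⟩ | ⟨rfl, rfl⟩)
          · exact ⟨hadj, Or.inl rfl, Or.inr rfl⟩
          · exact ⟨hadj.symm, Or.inr rfl, Or.inl rfl⟩
    rw [h1, Set.ncard_singleton, Finset.card_pair hne]
  replace hn : ¬ Sparse (H ⊔ SimpleGraph.edge x y) := fun h => hn ⟨hadj, h⟩
  simp only [Sparse, not_forall, not_le] at hn
  obtain ⟨S, hS, hlt⟩ := hn
  have h1 := hH S hS
  by_cases hxy : x ∈ S ∧ y ∈ S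
  · refine ⟨S, hxy.1, hxy.2, hS, ?_⟩
    have h2 : inside (H ⊔ SimpleGraph.edge x y) S ⊆ insert s(x, y) (inside H S) := by
      intro e
      induction e with
      | _ p q =>
        simp only [mem_inside, SimpleGraph.sup_adj, SimpleGraph.edge_adj, Set.mem_insert_iff,
          Sym2.eq_iff]
        tauto
    have h3 := Set.ncard_le_ncard h2 (Set.toFinite _)
    have h4 := Set.ncard_insert_le s(x, y) (inside H S)
    omega
  · exfalso
    have h2 : inside (H ⊔ SimpleGraph.edge x y) S ⊆ inside H S := by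
      intro e
      induction e with
      | _ p q =>
        simp only [mem_inside, SimpleGraph.sup_adj, SimpleGraph.edge_adj]
        rintro ⟨h | ⟨⟨rfl, rfl⟩ | ⟨rfl, rfl⟩, _⟩, hp, hq⟩
        · exact ⟨h, hp, hq⟩
        · exact absurd ⟨hp, hq⟩ hxy
        · exact absurd ⟨hq, hp⟩ hxy
    have h3 := Set.ncard_le_ncard h2 (Set.toFinite _)
    omega

/-- `G` with all edges at `v` removed. -/
def del (G : SimpleGraph V) (v : V) : SimpleGraph V where
  Adj x y := G.Adj x y ∧ x ≠ v ∧ y ≠ v
  symm := ⟨fun _ _ h => ⟨h.1.symm, h.2.2, h.2.1⟩⟩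
  loopless := ⟨fun x h => G.loopless.irrefl x h.1⟩

omit [Finite V] in
theorem del_le (G : SimpleGraph V) (v : V) : del G v ≤ G := fun _ _ h => h.1

omit [Finite V] in
theorem not_adj_del (G : SimpleGraph V) (v w : V) : ¬ (del G v).Adj v w := fun h => h.2.1 rfl

/-- A tight set of `del G v` cannot contain three neighbours of `v`. -/
theorem not_tight_three {G : SimpleGraph V} (hG : Sparse G) {v a b c : V}
    (hab : a ≠ b) (hac : a ≠ c) (hbc : b ≠ c) (ha : G.Adj v a) (hb : G.Adj v b)
    (hc : G.Adj v c) (S : Finset V) (haS : a ∈ S) (hbS : b ∈ S) (hcS : c ∈ S)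
    (ht : 2 * S.card ≤ (inside (del G v) S).ncard + 3) : False := by
  classical
  have h2 : 2 ≤ S.card := Finset.one_lt_card.mpr ⟨a, haS, b, hbS, hab⟩
  by_cases hv : v ∈ S
  · -- remove `v`
    have hsub : inside (del G v) S ⊆ inside (del G v) (S.erase v) := by
      intro e
      induction e with
      | _ p q =>
        simp only [mem_inside, Finset.mem_erase]
        rintro ⟨h, hp, hq⟩
        exact ⟨h, ⟨h.2.1, hp⟩, ⟨h.2.2, hq⟩⟩
    have h3 := Set.ncard_le_ncard hsub (Set.toFinite _)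
    have h4 : (S.erase v).card = S.card - 1 := Finset.card_erase_of_mem hv
    have h5 : 2 ≤ (S.erase v).card :=
      Finset.one_lt_card.mpr ⟨a, Finset.mem_erase.mpr ⟨ha.ne', haS⟩, b,
        Finset.mem_erase.mpr ⟨hb.ne', hbS⟩, hab⟩
    have h6 := (hG.mono (del_le G v)) _ h5
    omega
  · have hsub : inside (del G v) S ∪ {s(v, a), s(v, b), s(v, c)} ⊆ inside G (insert v S) := by
      intro e he
      rcases he with he | he
      · induction e with
        | _ p q =>
          rw [mem_inside] at he ⊢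
          exact ⟨he.1.1, Finset.mem_insert_of_mem he.2.1, Finset.mem_insert_of_mem he.2.2⟩
      · simp only [Set.mem_insert_iff, Set.mem_singleton_iff] at he
        rcases he with rfl | rfl | rfl
        · exact mem_inside.mpr ⟨ha, Finset.mem_insert_self _ _, Finset.mem_insert_of_mem haS⟩
        · exact mem_inside.mpr ⟨hb, Finset.mem_insert_self _ _, Finset.mem_insert_of_mem hbS⟩
        · exact mem_inside.mpr ⟨hc, Finset.mem_insert_self _ _, Finset.mem_insert_of_mem hcS⟩
    have hdisj : Disjoint (inside (del G v) S) {s(v, a), s(v, b), s(v, c)} := by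
      rw [Set.disjoint_left]
      intro e he he'
      simp only [Set.mem_insert_iff, Set.mem_singleton_iff] at he'
      rcases he' with rfl | rfl | rfl
      · exact not_adj_del _ _ _ (mem_inside.mp he).1
      · exact not_adj_del _ _ _ (mem_inside.mp he).1
      · exact not_adj_del _ _ _ (mem_inside.mp he).1
    have hthree : ({s(v, a), s(v, b), s(v, c)} : Set (Sym2 V)).ncard = 3 := by
      rw [Set.ncard_eq_three]
      refine ⟨_, _, _, ?_, ?_, ?_, rfl⟩
      · simp only [ne_eq, Sym2.eq_iff, not_or, not_and]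
        exact ⟨fun _ h => hab h, fun h => absurd h hb.ne⟩
      · simp only [ne_eq, Sym2.eq_iff, not_or, not_and]
        exact ⟨fun _ h => hac h, fun h => absurd h hc.ne⟩
      · simp only [ne_eq, Sym2.eq_iff, not_or, not_and]
        exact ⟨fun _ h => hbc h, fun h => absurd h hc.ne⟩
    have h3 := Set.ncard_le_ncard hsub (Set.toFinite _)
    rw [Set.ncard_union_eq hdisj, hthree] at h3
    have h4 : (insert v S).card = S.card + 1 := Finset.card_insert_of_notMem hv
    have h5 := hG (insert v S) (by omega)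
    omega

omit [Finite V] in
/-- Edges inside sets meeting in at most one vertex are different. -/
theorem inside_disjoint (G : SimpleGraph V) {S T : Finset V}
    (h : ∀ x y, x ∈ S → x ∈ T → y ∈ S → y ∈ T → x = y) :
    Disjoint (inside G S) (inside G T) := by
  rw [Set.disjoint_left]
  intro e
  induction e with
  | _ x y =>
    intro h1 h2
    rw [mem_inside] at h1 h2
    exact h1.1.ne (h x y h1.2.1 h2.2.1 h1.2.2 h2.2.2)

/-- Two tight sets sharing two vertices: the union is tight. -/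
theorem union_tight [DecidableEq V] {H : SimpleGraph V} (hH : Sparse H) {S T : Finset V}
    (hS : (inside H S).ncard + 3 = 2 * S.card) (hT : (inside H T).ncard + 3 = 2 * T.card)
    (h2 : 2 ≤ (S ∩ T).card) : 2 * (S ∪ T).card ≤ (inside H (S ∪ T)).ncard + 3 := by
  have h1 := super H S T
  have h3 := hH _ h2
  have h4 := Finset.card_union_add_card_inter S T
  omega

/-- **Inverse Henneberg step** (Laman, Henneberg). -/
theorem henneberg {G : SimpleGraph V} (hG : Sparse G) {v a b c : V}
    (hab : a ≠ b) (hac : a ≠ c) (hbc : b ≠ c) (ha : G.Adj v a) (hb : G.Adj v b)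
    (hc : G.Adj v c) :
    (¬ (del G v).Adj a b ∧ Sparse (del G v ⊔ SimpleGraph.edge a b)) ∨
      (¬ (del G v).Adj a c ∧ Sparse (del G v ⊔ SimpleGraph.edge a c)) ∨
      (¬ (del G v).Adj b c ∧ Sparse (del G v ⊔ SimpleGraph.edge b c)) := by
  classical
  by_contra hcon
  rw [not_or, not_or] at hcon
  obtain ⟨h1, h2, h3⟩ := hcon
  have hH : Sparse (del G v) := hG.mono (del_le G v)
  set H := del G v with hHdef
  obtain ⟨A, haA, hbA, hA2, hA⟩ := exists_tight hH hab h1
  obtain ⟨B, haB, hcB, hB2, hB⟩ := exists_tight hH hac h2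
  obtain ⟨D, hbD, hcD, hD2, hD⟩ := exists_tight hH hbc h3
  have key : ∀ S : Finset V, a ∈ S → b ∈ S → c ∈ S → 2 * S.card ≤ (inside H S).ncard + 3 →
      False := fun S h1 h2 h3 h4 => not_tight_three hG hab hac hbc ha hb hc S h1 h2 h3 h4
  have hAB : (A ∩ B).card < 2 := by
    by_contra h
    push Not at h
    exact key (A ∪ B) (by simp [haA]) (by simp [hbA]) (by simp [hcB]) (union_tight hH hA hB h)
  have hAD : (A ∩ D).card < 2 := by
    by_contra h
    push Not at h
    exact key (A ∪ D) (by simp [haA]) (by simp [hbA]) (by simp [hcD]) (union_tight hH hA hD h)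
  have hBD : (B ∩ D).card < 2 := by
    by_contra h
    push Not at h
    exact key (B ∪ D) (by simp [haB]) (by simp [hbD]) (by simp [hcD]) (union_tight hH hB hD h)
  have one : ∀ {S T : Finset V}, (S ∩ T).card < 2 →
      ∀ x y, x ∈ S → x ∈ T → y ∈ S → y ∈ T → x = y := by
    intro S T h x y hx hx' hy hy'
    by_contra hne
    have := Finset.one_lt_card.mpr ⟨x, Finset.mem_inter.mpr ⟨hx, hx'⟩, y,
      Finset.mem_inter.mpr ⟨hy, hy'⟩, hne⟩
    omega
  -- cardinality of the union
  have hABeq : A ∩ B = {a} := by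
    apply Finset.eq_singleton_iff_unique_mem.mpr
    refine ⟨Finset.mem_inter.mpr ⟨haA, haB⟩, fun x hx => ?_⟩
    exact one hAB x a (Finset.mem_inter.mp hx).1 (Finset.mem_inter.mp hx).2 haA haB
  have hABD : (A ∪ B) ∩ D = {b, c} := by
    ext x
    simp only [Finset.mem_inter, Finset.mem_union, Finset.mem_insert, Finset.mem_singleton]
    constructor
    · rintro ⟨hx | hx, hxD⟩
      · exact Or.inl (one hAD x b hx hxD hbA hbD)
      · exact Or.inr (one hBD x c hx hxD hcB hcD)
    · rintro (rfl | rfl)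
      · exact ⟨Or.inl hbA, hbD⟩
      · exact ⟨Or.inr hcB, hcD⟩
  have c1 := Finset.card_union_add_card_inter A B
  have c2 := Finset.card_union_add_card_inter (A ∪ B) D
  rw [hABeq, Finset.card_singleton] at c1
  rw [hABD, Finset.card_pair hbc] at c2
  -- the edges
  have d1 : Disjoint (inside H A) (inside H B) := inside_disjoint H (one hAB)
  have d2 : Disjoint (inside H A ∪ inside H B) (inside H D) :=
    Set.disjoint_union_left.mpr ⟨inside_disjoint H (one hAD), inside_disjoint H (one hBD)⟩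
  have hsub : inside H A ∪ inside H B ∪ inside H D ⊆ inside H (A ∪ B ∪ D) := by
    refine subset_trans ?_ (inside_union H (A ∪ B) D)
    exact Set.union_subset_union_left _ (inside_union H A B)
  have h5 := Set.ncard_le_ncard hsub (Set.toFinite _)
  rw [Set.ncard_union_eq d2, Set.ncard_union_eq d1] at h5
  exact key (A ∪ B ∪ D) (by simp [haA]) (by simp [hbA]) (by simp [hcB]) (by omega)

end fin

/-! ### Adding edges to forests -/

theorem not_reachable_of_isolated {F : SimpleGraph V} {v : V} (hv : ∀ w, ¬ F.Adj v w) {u : V}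
    (hu : u ≠ v) : ¬ F.Reachable v u := by
  rintro ⟨p⟩
  cases p with
  | nil => exact hu rfl
  | cons h _ => exact hv _ h

theorem leaf_acyclic {F : SimpleGraph V} (hF : F.IsAcyclic) {v : V} (hv : ∀ w, ¬ F.Adj v w)
    {u : V} (hu : u ≠ v) : (F ⊔ SimpleGraph.edge v u).IsAcyclic :=
  hF.sup_edge_of_not_reachable (not_reachable_of_isolated hv hu)

theorem two_acyclic {F : SimpleGraph V} (hF : F.IsAcyclic) {v : V} (hv : ∀ w, ¬ F.Adj v w)
    {x y : V} (hx : x ≠ v) (hy : y ≠ v) (hxy : ¬ F.Reachable x y) :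
    (F ⊔ SimpleGraph.edge v x ⊔ SimpleGraph.edge v y).IsAcyclic := by
  apply (leaf_acyclic hF hv hx).sup_edge_of_not_reachable
  -- the component of `v` in `F + vx`
  have key : ∀ p q : V, (F ⊔ SimpleGraph.edge v x).Walk p q → (p = v ∨ F.Reachable x p) →
      (q = v ∨ F.Reachable x q) := by
    intro p q w
    induction w with
    | nil => exact id
    | @cons p r q h w ih =>
      intro hp
      apply ih
      rcases h with h | h
      · rcases hp with rfl | hp
        · exact absurd h (hv _)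
        · exact Or.inr (hp.trans h.reachable)
      · rw [SimpleGraph.edge_adj] at h
        rcases h with ⟨⟨h1, rfl⟩ | ⟨h1, rfl⟩, _⟩
        · exact Or.inr (SimpleGraph.Reachable.refl _)
        · exact Or.inl rfl
  rintro ⟨w⟩
  rcases key v y w (Or.inl rfl) with h | h
  · exact hy h
  · exact hxy h

/-- **Sparse graphs are unions of two forests.** If every set `S` of at least two vertices
spans at most `2 |S| - 3` edges, then the edges can be covered by two forests. -/
theorem two_forests [Finite V] (G : SimpleGraph V) (hG : Sparse G) :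
    ∃ F₁ F₂ : SimpleGraph V, F₁.IsAcyclic ∧ F₂.IsAcyclic ∧ G = F₁ ⊔ F₂ := by
  classical
  have := Fintype.ofFinite V
  suffices H : ∀ n : ℕ, ∀ G : SimpleGraph V, Sparse G →
      (Finset.univ.filter (fun v => ∃ w, G.Adj v w)).card = n →
      ∃ F₁ F₂ : SimpleGraph V, F₁.IsAcyclic ∧ F₂.IsAcyclic ∧ G = F₁ ⊔ F₂ from H _ G hG rfl
  intro n
  induction n using Nat.strong_induction_on with
  | _ n ih =>
    intro G hG hn
    set S : Finset V := Finset.univ.filter (fun v => ∃ w, G.Adj v w) with hS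
    have memS : ∀ v, v ∈ S ↔ ∃ w, G.Adj v w := fun v => by simp [hS]
    by_cases hE : ∃ u v, G.Adj u v
    swap
    · push Not at hE
      refine ⟨⊥, ⊥, SimpleGraph.isAcyclic_bot, SimpleGraph.isAcyclic_bot, ?_⟩
      ext u v
      simp [hE u v]
    obtain ⟨u₀, v₀, huv₀⟩ := hE
    have hS2 : 2 ≤ S.card :=
      Finset.one_lt_card.mpr ⟨u₀, (memS _).mpr ⟨_, huv₀⟩, v₀, (memS _).mpr ⟨_, huv₀.symm⟩,
        huv₀.ne⟩
    -- a vertex of degree at most three
    have hall : inside G S = G.edgeSet := by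
      ext e
      induction e with
      | _ x y =>
        rw [mem_inside, SimpleGraph.mem_edgeSet]
        exact ⟨fun h => h.1, fun h => ⟨h, (memS _).mpr ⟨_, h⟩, (memS _).mpr ⟨_, h.symm⟩⟩⟩
    have hcount : G.edgeSet.ncard + 3 ≤ 2 * S.card := by
      have := hG S hS2
      rwa [hall] at this
    have hsum : ∑ v, G.degree v = 2 * G.edgeSet.ncard := by
      rw [G.sum_degrees_eq_twice_card_edges, ← SimpleGraph.coe_edgeFinset,
        Set.ncard_coe_finset]
    have hsumS : ∑ v ∈ S, G.degree v ≤ 2 * G.edgeSet.ncard := by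
      rw [← hsum]
      exact Finset.sum_le_sum_of_subset (Finset.subset_univ _)
    obtain ⟨v, hvS, hdeg⟩ : ∃ v ∈ S, G.degree v < 4 := by
      by_contra hcon
      push Not at hcon
      have := Finset.card_nsmul_le_sum S (fun v => G.degree v) 4 hcon
      simp only [smul_eq_mul] at this
      omega
    have hpos : 0 < G.degree v := by
      rw [SimpleGraph.degree_pos_iff_exists_adj]
      exact (memS v).mp hvS
    have hN : ∀ w, G.Adj v w ↔ w ∈ G.neighborFinset v := fun w => by simp
    -- the measure decreases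
    have hlt : ∀ G' : SimpleGraph V, (∀ w, ¬ G'.Adj v w) →
        (∀ x y, G'.Adj x y → x ∈ S) →
        (Finset.univ.filter (fun v => ∃ w, G'.Adj v w)).card < n := by
      intro G' h1 h2
      rw [← hn]
      apply Finset.card_lt_card
      refine ⟨?_, fun h => ?_⟩
      · intro x hx
        obtain ⟨y, hy⟩ := (Finset.mem_filter.mp hx).2
        exact h2 x y hy
      · obtain ⟨y, hy⟩ := (Finset.mem_filter.mp (h hvS)).2
        exact h1 y hy
    have hdelS : ∀ x y, (del G v).Adj x y → x ∈ S := fun x y h => (memS x).mpr ⟨y, h.1⟩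
    have hsplit : ∀ x y, G.Adj x y ↔ (del G v).Adj x y ∨ (x = v ∧ G.Adj v y) ∨
        (y = v ∧ G.Adj v x) := by
      intro x y
      constructor
      · intro h
        by_cases hx : x = v
        · subst hx; exact Or.inr (Or.inl ⟨rfl, h⟩)
        · by_cases hy : y = v
          · subst hy; exact Or.inr (Or.inr ⟨rfl, h.symm⟩)
          · exact Or.inl ⟨h, hx, hy⟩
      · rintro (h | ⟨rfl, h⟩ | ⟨rfl, h⟩)
        · exact h.1
        · exact h
        · exact h.symm
    have hcases : G.degree v = 1 ∨ G.degree v = 2 ∨ G.degree v = 3 := by omega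
    rcases hcases with h1 | h2 | h3
    · rw [← SimpleGraph.card_neighborFinset_eq_degree, Finset.card_eq_one] at h1
      obtain ⟨a, ha⟩ := h1
      have hN' : ∀ w, G.Adj v w ↔ w = a := fun w => by rw [hN, ha, Finset.mem_singleton]
      obtain ⟨F₁, F₂, hF₁, hF₂, hsup⟩ := ih _ (hlt (del G v) (not_adj_del G v) hdelS) (del G v)
        (hG.mono (del_le G v)) rfl
      have hiso : ∀ w, ¬ F₁.Adj v w := fun w h => not_adj_del G v w (by rw [hsup]; exact Or.inl h)
      have hav : a ≠ v := ((hN' a).mpr rfl).ne'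
      refine ⟨F₁ ⊔ SimpleGraph.edge v a, F₂, leaf_acyclic hF₁ hiso hav, hF₂, ?_⟩
      ext x y
      rw [hsplit, hsup]
      simp only [SimpleGraph.sup_adj, SimpleGraph.edge_adj, hN']
      constructor
      · rintro ((h | h) | ⟨rfl, rfl⟩ | ⟨rfl, rfl⟩)
        · exact Or.inl (Or.inl h)
        · exact Or.inr h
        · exact Or.inl (Or.inr ⟨Or.inl ⟨rfl, rfl⟩, hav.symm⟩)
        · exact Or.inl (Or.inr ⟨Or.inr ⟨rfl, rfl⟩, hav⟩)
      · rintro ((h | ⟨⟨rfl, rfl⟩ | ⟨rfl, rfl⟩, _⟩) | h)
        · exact Or.inl (Or.inl h)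
        · exact Or.inr (Or.inl ⟨rfl, rfl⟩)
        · exact Or.inr (Or.inr ⟨rfl, rfl⟩)
        · exact Or.inl (Or.inr h)
    · rw [← SimpleGraph.card_neighborFinset_eq_degree, Finset.card_eq_two] at h2
      obtain ⟨a, b, hab, hab'⟩ := h2
      have hN' : ∀ w, G.Adj v w ↔ w = a ∨ w = b := fun w => by
        rw [hN, hab', Finset.mem_insert, Finset.mem_singleton]
      obtain ⟨F₁, F₂, hF₁, hF₂, hsup⟩ := ih _ (hlt (del G v) (not_adj_del G v) hdelS) (del G v)
        (hG.mono (del_le G v)) rfl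
      have hiso : ∀ w, ¬ F₁.Adj v w := fun w h => not_adj_del G v w (by rw [hsup]; exact Or.inl h)
      have hiso' : ∀ w, ¬ F₂.Adj v w :=
        fun w h => not_adj_del G v w (by rw [hsup]; exact Or.inr h)
      have hav : a ≠ v := ((hN' a).mpr (Or.inl rfl)).ne'
      have hbv : b ≠ v := ((hN' b).mpr (Or.inr rfl)).ne'
      refine ⟨F₁ ⊔ SimpleGraph.edge v a, F₂ ⊔ SimpleGraph.edge v b, leaf_acyclic hF₁ hiso hav,
        leaf_acyclic hF₂ hiso' hbv, ?_⟩
      ext x y
      rw [hsplit, hsup]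
      simp only [SimpleGraph.sup_adj, SimpleGraph.edge_adj, hN']
      constructor
      · rintro ((h | h) | ⟨rfl, rfl | rfl⟩ | ⟨rfl, rfl | rfl⟩)
        · exact Or.inl (Or.inl h)
        · exact Or.inr (Or.inl h)
        · exact Or.inl (Or.inr ⟨Or.inl ⟨rfl, rfl⟩, hav.symm⟩)
        · exact Or.inr (Or.inr ⟨Or.inl ⟨rfl, rfl⟩, hbv.symm⟩)
        · exact Or.inl (Or.inr ⟨Or.inr ⟨rfl, rfl⟩, hav⟩)
        · exact Or.inr (Or.inr ⟨Or.inr ⟨rfl, rfl⟩, hbv⟩)
      · rintro ((h | ⟨⟨rfl, rfl⟩ | ⟨rfl, rfl⟩, _⟩) | (h | ⟨⟨rfl, rfl⟩ | ⟨rfl, rfl⟩, _⟩))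
        · exact Or.inl (Or.inl h)
        · exact Or.inr (Or.inl ⟨rfl, Or.inl rfl⟩)
        · exact Or.inr (Or.inr ⟨rfl, Or.inl rfl⟩)
        · exact Or.inl (Or.inr h)
        · exact Or.inr (Or.inl ⟨rfl, Or.inr rfl⟩)
        · exact Or.inr (Or.inr ⟨rfl, Or.inr rfl⟩)
    · rw [← SimpleGraph.card_neighborFinset_eq_degree, Finset.card_eq_three] at h3
      obtain ⟨a, b, c, hab, hac, hbc, habc⟩ := h3
      have hN' : ∀ w, G.Adj v w ↔ w = a ∨ w = b ∨ w = c := fun w => by
        rw [hN, habc, Finset.mem_insert, Finset.mem_insert, Finset.mem_singleton]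
      -- choose the pair
      obtain ⟨x, y, z, hxy, hN'', hnadj, hsp⟩ : ∃ x y z, x ≠ y ∧
          (∀ w, G.Adj v w ↔ w = x ∨ w = y ∨ w = z) ∧ ¬ (del G v).Adj x y ∧
          Sparse (del G v ⊔ SimpleGraph.edge x y) := by
        rcases henneberg hG hab hac hbc ((hN' a).mpr (by simp)) ((hN' b).mpr (by simp))
          ((hN' c).mpr (by simp)) with h | h | h
        · exact ⟨a, b, c, hab, hN', h⟩
        · exact ⟨a, c, b, hac, fun w => by rw [hN']; tauto, h⟩
        · exact ⟨b, c, a, hbc, fun w => by rw [hN']; tauto, h⟩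
      have hvx : G.Adj v x := (hN'' x).mpr (by simp)
      have hvy : G.Adj v y := (hN'' y).mpr (by simp)
      have hvz : G.Adj v z := (hN'' z).mpr (by simp)
      have hG'v : ∀ w, ¬ (del G v ⊔ SimpleGraph.edge x y).Adj v w := by
        intro w h
        rcases h with h | h
        · exact not_adj_del G v w h
        · rw [SimpleGraph.edge_adj] at h
          rcases h with ⟨⟨h1, _⟩ | ⟨h1, _⟩, _⟩
          · exact hvx.ne h1
          · exact hvy.ne h1
      obtain ⟨F₁, F₂, hF₁, hF₂, hsup⟩ := ih _ (hlt (del G v ⊔ SimpleGraph.edge x y) hG'v (by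
        intro p q h
        rcases h with h | h
        · exact hdelS p q h
        · rw [SimpleGraph.edge_adj] at h
          rcases h with ⟨⟨rfl, _⟩ | ⟨rfl, _⟩, _⟩
          · exact (memS _).mpr ⟨v, hvx.symm⟩
          · exact (memS _).mpr ⟨v, hvy.symm⟩)) _ hsp rfl
      -- the new edge lies in one of the forests
      have hmain : ∀ F₁ F₂ : SimpleGraph V, F₁.IsAcyclic → F₂.IsAcyclic →
          del G v ⊔ SimpleGraph.edge x y = F₁ ⊔ F₂ → F₁.Adj x y →
          ∃ F₁ F₂ : SimpleGraph V, F₁.IsAcyclic ∧ F₂.IsAcyclic ∧ G = F₁ ⊔ F₂ := by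
        intro F₁ F₂ hF₁ hF₂ hsup hF₁xy
        set K₁ := F₁ ⊓ del G v ⊓ (SimpleGraph.edge x y)ᶜ with hK₁
        have hK₁le : K₁ ≤ F₁ := inf_le_left.trans inf_le_left
        have hK₁ac : K₁.IsAcyclic := hF₁.anti hK₁le
        have hnr : ¬ K₁.Reachable x y := by
          intro h
          have h1 : ¬ (F₁.deleteEdges {s(x, y)}).Reachable x y :=
            (SimpleGraph.isAcyclic_iff_forall_adj_isBridge.mp hF₁) hF₁xy
          apply h1
          apply h.mono
          intro p q hpq
          rw [SimpleGraph.deleteEdges_adj]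
          refine ⟨hK₁le hpq, fun h2 => ?_⟩
          have h3 : ¬ (SimpleGraph.edge x y).Adj p q := hpq.2.2
          apply h3
          rw [SimpleGraph.edge_adj]
          rw [Set.mem_singleton_iff, Sym2.eq_iff] at h2
          exact ⟨h2, hpq.ne⟩
        have hiso : ∀ w, ¬ K₁.Adj v w := fun w h => not_adj_del G v w h.1.2
        have hiso2 : ∀ w, ¬ (F₂ ⊓ del G v).Adj v w := fun w h => not_adj_del G v w h.2
        refine ⟨K₁ ⊔ SimpleGraph.edge v x ⊔ SimpleGraph.edge v y,
          (F₂ ⊓ del G v) ⊔ SimpleGraph.edge v z,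
          two_acyclic hK₁ac hiso hvx.ne' hvy.ne' hnr,
          leaf_acyclic (hF₂.anti inf_le_left) hiso2 hvz.ne', ?_⟩
        ext p q
        rw [hsplit]
        simp only [SimpleGraph.sup_adj, SimpleGraph.edge_adj, hN'']
        constructor
        · rintro (h | ⟨rfl, rfl | rfl | rfl⟩ | ⟨rfl, rfl | rfl | rfl⟩)
          · have h1 : (F₁ ⊔ F₂).Adj p q := by rw [← hsup]; exact Or.inl h
            rcases h1 with h1 | h1
            · refine Or.inl (Or.inl (Or.inl ⟨⟨h1, h⟩, ?_⟩))
              rw [SimpleGraph.compl_adj]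
              refine ⟨h.ne, fun h2 => ?_⟩
              rw [SimpleGraph.edge_adj] at h2
              rcases h2 with ⟨⟨rfl, rfl⟩ | ⟨rfl, rfl⟩, _⟩
              · exact hnadj h
              · exact hnadj h.symm
            · exact Or.inr (Or.inl ⟨h1, h⟩)
          · exact Or.inl (Or.inl (Or.inr ⟨Or.inl ⟨rfl, rfl⟩, hvx.ne⟩))
          · exact Or.inl (Or.inr ⟨Or.inl ⟨rfl, rfl⟩, hvy.ne⟩)
          · exact Or.inr (Or.inr ⟨Or.inl ⟨rfl, rfl⟩, hvz.ne⟩)
          · exact Or.inl (Or.inl (Or.inr ⟨Or.inr ⟨rfl, rfl⟩, hvx.ne'⟩))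
          · exact Or.inl (Or.inr ⟨Or.inr ⟨rfl, rfl⟩, hvy.ne'⟩)
          · exact Or.inr (Or.inr ⟨Or.inr ⟨rfl, rfl⟩, hvz.ne'⟩)
        · rintro (((h | ⟨⟨rfl, rfl⟩ | ⟨rfl, rfl⟩, _⟩) | ⟨⟨rfl, rfl⟩ | ⟨rfl, rfl⟩, _⟩) |
            (h | ⟨⟨rfl, rfl⟩ | ⟨rfl, rfl⟩, _⟩))
          · exact Or.inl h.1.2
          · exact Or.inr (Or.inl ⟨rfl, Or.inl rfl⟩)
          · exact Or.inr (Or.inr ⟨rfl, Or.inl rfl⟩)
          · exact Or.inr (Or.inl ⟨rfl, Or.inr (Or.inl rfl)⟩)
          · exact Or.inr (Or.inr ⟨rfl, Or.inr (Or.inl rfl)⟩)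
          · exact Or.inl h.2
          · exact Or.inr (Or.inl ⟨rfl, Or.inr (Or.inr rfl)⟩)
          · exact Or.inr (Or.inr ⟨rfl, Or.inr (Or.inr rfl)⟩)
      have hadj : (F₁ ⊔ F₂).Adj x y := by
        rw [← hsup]
        exact Or.inr ((SimpleGraph.edge_adj _ _ _ _).mpr ⟨Or.inl ⟨rfl, rfl⟩, hxy⟩)
      rcases hadj with h | h
      · exact hmain F₁ F₂ hF₁ hF₂ hsup h
      · exact hmain F₂ F₁ hF₂ hF₁ (by rw [hsup, sup_comm]) h

end Pool.Agent.Helper12.LP
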