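import Mathlib
import Pool.Agent.Helper12.LP.Ordered

set_option autoImplicit false

/-! Stacked quadrangulations: built from a 4-cycle by inserting vertices of degree two in faces. -/

namespace Pool.Agent.Helper12.LP3

/-- `Stacked l H F`: the graph `H` with vertex set `l` (listed in reverse order of insertion) is the
quadrangulation of the sphere with the faces `F` which arises from a 4-cycle (with two faces) by
repeatedly inserting a new vertex in a face and joining it to two opposite corners of this face.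
A face is written as the cyclic sequence of its corners. -/
inductive Stacked {n : ℕ} : List (Fin n) → SimpleGraph (Fin n) →
    Multiset (Fin n × Fin n × Fin n × Fin n) → Prop
  | base (a b c d : Fin n) (h : [a, b, c, d].Nodup) :
      Stacked [d, c, b, a] (SimpleGraph.fromEdgeSet {s(a, b), s(b, c), s(c, d), s(d, a)})
        {(a, b, c, d), (a, b, c, d)}
  | insert {l : List (Fin n)} {H : SimpleGraph (Fin n)}
      {F : Multiset (Fin n × Fin n × Fin n × Fin n)} (a b c d v : Fin n)
      (h : Stacked l H ((a, b, c, d) ::ₘ F)) (hv : v ∉ l) :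
      Stacked (v :: l) (H ⊔ SimpleGraph.fromEdgeSet {s(v, a), s(v, c)})
        ((a, b, c, v) ::ₘ (a, v, c, d) ::ₘ F)
  | rotate {l : List (Fin n)} {H : SimpleGraph (Fin n)}
      {F : Multiset (Fin n × Fin n × Fin n × Fin n)} (a b c d : Fin n)
      (h : Stacked l H ((a, b, c, d) ::ₘ F)) :
      Stacked l H ((b, c, d, a) ::ₘ F)

/-- the invariants of a face -/
structure FaceOK {n : ℕ} (H : SimpleGraph (Fin n)) (r : Fin n → ℕ) (l : List (Fin n))
    (f : Fin n × Fin n × Fin n × Fin n) : Prop where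
  m1 : f.1 ∈ l
  m2 : f.2.1 ∈ l
  m3 : f.2.2.1 ∈ l
  m4 : f.2.2.2 ∈ l
  a1 : H.Adj f.1 f.2.1
  a2 : H.Adj f.2.1 f.2.2.1
  a3 : H.Adj f.2.2.1 f.2.2.2
  a4 : H.Adj f.2.2.2 f.1
  g1 : r f.1 < r f.2.2.1 → GoodPair H r f.1 f.2.2.1
  g1' : r f.2.2.1 < r f.1 → GoodPair H r f.2.2.1 f.1
  g2 : r f.2.1 < r f.2.2.2 → GoodPair H r f.2.1 f.2.2.2
  g2' : r f.2.2.2 < r f.2.1 → GoodPair H r f.2.2.2 f.2.1

/-- the invariants of a stacked quadrangulation -/
structure Inv {n : ℕ} (H : SimpleGraph (Fin n)) (r : Fin n → ℕ) (l : List (Fin n))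
    (F : Multiset (Fin n × Fin n × Fin n × Fin n)) : Prop where
  lt : ∀ v ∈ l, r v < l.length
  inj : ∀ v ∈ l, ∀ w ∈ l, r v = r w → v = w
  supp : ∀ v w, H.Adj v w → v ∈ l
  early2 : ∀ v, (early H r v).ncard ≤ 2
  good : ∀ v w w', H.Adj v w → H.Adj v w' → r w < r w' → r w' < r v → GoodPair H r w w'
  face : ∀ f ∈ F, FaceOK H r l f

lemma inv_step {n : ℕ} {H : SimpleGraph (Fin n)} {r : Fin n → ℕ} {l : List (Fin n)}
    {F : Multiset (Fin n × Fin n × Fin n × Fin n)} (a b c d v : Fin n)
    (h : Inv H r l ((a, b, c, d) ::ₘ F)) (hv : v ∉ l) :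
    Inv (H ⊔ SimpleGraph.fromEdgeSet {s(v, a), s(v, c)}) (Function.update r v l.length) (v :: l)
      ((a, b, c, v) ::ₘ (a, v, c, d) ::ₘ F) := by
  set H' := H ⊔ SimpleGraph.fromEdgeSet {s(v, a), s(v, c)} with hH'
  set r' := Function.update r v l.length with hr'
  have hface := h.face (a, b, c, d) (Multiset.mem_cons_self _ _)
  have ha : a ∈ l := hface.m1
  have hc : c ∈ l := hface.m3
  have hav : a ≠ v := by rintro rfl; exact hv ha
  have hcv : c ≠ v := by rintro rfl; exact hv hc
  have hne : ∀ {w}, w ∈ l → w ≠ v := by rintro w hw rfl; exact hv hw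
  have hrl : ∀ {w}, w ≠ v → r' w = r w := fun hw => Function.update_of_ne hw _ _
  have hrv : r' v = l.length := Function.update_self _ _ _
  -- adjacency
  have hadj : ∀ x y, H'.Adj x y ↔ H.Adj x y ∨ (x = v ∧ (y = a ∨ y = c)) ∨
      (y = v ∧ (x = a ∨ x = c)) := by
    intro x y
    rw [hH', SimpleGraph.sup_adj, SimpleGraph.fromEdgeSet_adj]
    simp only [Set.mem_insert_iff, Set.mem_singleton_iff, Sym2.eq_iff]
    constructor
    · rintro (h1 | ⟨(⟨rfl, rfl⟩ | ⟨rfl, rfl⟩) | (⟨rfl, rfl⟩ | ⟨rfl, rfl⟩), h2⟩) <;> tauto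
    · rintro (h1 | ⟨rfl, rfl | rfl⟩ | ⟨rfl, rfl | rfl⟩)
      · exact Or.inl h1
      · exact Or.inr ⟨by tauto, hav.symm⟩
      · exact Or.inr ⟨by tauto, hcv.symm⟩
      · exact Or.inr ⟨by tauto, hav⟩
      · exact Or.inr ⟨by tauto, hcv⟩
  have hle : ∀ {x y}, H.Adj x y → H'.Adj x y := fun h => (hadj _ _).mpr (Or.inl h)
  have hnv : ∀ {x}, ¬ H.Adj v x := fun h1 => hv (h.supp _ _ h1)
  have hnv' : ∀ {x}, ¬ H.Adj x v := fun h1 => hv (h.supp _ _ h1.symm)
  -- earlier neighbours of the old vertices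
  have hlt' : ∀ w ∈ l, r' w < l.length := fun w hw => by rw [hrl (hne hw)]; exact h.lt w hw
  have hold : ∀ w u, w ≠ v → H'.Adj w u → r' u < r' w → w ∈ l → H.Adj w u ∧ r u < r w := by
    intro w u hw h1 h2 hwl
    have huv : u ≠ v := by
      rintro rfl
      rw [hrv] at h2
      have := hlt' w hwl
      omega
    rw [hrl hw, hrl huv] at h2
    rcases (hadj _ _).mp h1 with h3 | ⟨h3, -⟩ | ⟨h3, -⟩
    · exact ⟨h3, h2⟩
    · exact absurd h3 hw
    · exact absurd h3 huv
  have hearly : ∀ w ∈ l, early H' r' w = early H r w := by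
    intro w hw
    ext u
    constructor
    · rintro ⟨h1, h2⟩
      exact hold w u (hne hw) h1 h2 hw
    · rintro ⟨h1, h2⟩
      have huv : u ≠ v := by rintro rfl; exact hnv' h1
      exact ⟨hle h1, by rw [hrl (hne hw), hrl huv]; exact h2⟩
  have hgood : ∀ w w', w ∈ l → w' ∈ l → GoodPair H r w w' → GoodPair H' r' w w' := by
    rintro w w' hw hw' (h1 | h1)
    · left; rw [hearly w' hw']; exact h1
    · right
      intro u h2 h3
      obtain ⟨h4, h5⟩ := hold w' u (hne hw') h2 h3 hw'
      exact hle (h1 u h4 h5)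
  have hnbv : ∀ u, H'.Adj v u → u = a ∨ u = c := by
    intro u hu
    rcases (hadj _ _).mp hu with h1 | ⟨-, h1⟩ | ⟨h1, h2⟩
    · exact absurd h1 hnv
    · exact h1
    · subst h1
      rcases h2 with h2 | h2
      · exact absurd h2.symm hav
      · exact absurd h2.symm hcv
  have hadja : H'.Adj v a := (hadj _ _).mpr (Or.inr (Or.inl ⟨rfl, Or.inl rfl⟩))
  have hadjc : H'.Adj v c := (hadj _ _).mpr (Or.inr (Or.inl ⟨rfl, Or.inr rfl⟩))
  -- the new vertex forms good pairs with the common neighbours of `a` and `c`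
  have hgv : ∀ w, H.Adj w a → H.Adj w c → GoodPair H' r' w v := by
    intro w h1 h2
    right
    intro u h3 _
    rcases hnbv u h3 with rfl | rfl
    · exact hle h1
    · exact hle h2
  have hfold : ∀ f, FaceOK H r l f → FaceOK H' r' (v :: l) f := by
    intro f hf
    have n1 := hne hf.m1
    have n2 := hne hf.m2
    have n3 := hne hf.m3
    have n4 := hne hf.m4
    refine ⟨List.mem_cons_of_mem _ hf.m1, List.mem_cons_of_mem _ hf.m2,
      List.mem_cons_of_mem _ hf.m3, List.mem_cons_of_mem _ hf.m4, hle hf.a1, hle hf.a2, hle hf.a3,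
      hle hf.a4, ?_, ?_, ?_, ?_⟩
    · rw [hrl n1, hrl n3]; exact fun hh => hgood _ _ hf.m1 hf.m3 (hf.g1 hh)
    · rw [hrl n1, hrl n3]; exact fun hh => hgood _ _ hf.m3 hf.m1 (hf.g1' hh)
    · rw [hrl n2, hrl n4]; exact fun hh => hgood _ _ hf.m2 hf.m4 (hf.g2 hh)
    · rw [hrl n2, hrl n4]; exact fun hh => hgood _ _ hf.m4 hf.m2 (hf.g2' hh)
  have hF := hfold _ hface
  refine ⟨?_, ?_, ?_, ?_, ?_, ?_⟩
  · intro w hw
    rw [List.length_cons]
    rcases List.mem_cons.mp hw with rfl | hw
    · rw [hrv]; omega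
    · have := hlt' w hw; omega
  · intro w hw w' hw' he
    rcases List.mem_cons.mp hw with h1 | h1
    · rcases List.mem_cons.mp hw' with h2 | h2
      · rw [h1, h2]
      · rw [h1, hrv] at he
        have := hlt' w' h2
        omega
    · rcases List.mem_cons.mp hw' with h2 | h2
      · rw [h2, hrv] at he
        have := hlt' w h1
        omega
      · rw [hrl (hne h1), hrl (hne h2)] at he
        exact h.inj w h1 w' h2 he
  · intro w u hwu
    rcases (hadj _ _).mp hwu with h1 | ⟨rfl, -⟩ | ⟨-, rfl | rfl⟩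
    · exact List.mem_cons_of_mem _ (h.supp _ _ h1)
    · exact List.mem_cons_self
    · exact List.mem_cons_of_mem _ ha
    · exact List.mem_cons_of_mem _ hc
  · intro w
    by_cases hw : w = v
    · subst hw
      have hsub : early H' r' w ⊆ {a, c} := by
        rintro u ⟨h1, -⟩
        exact hnbv u h1
      refine (Set.ncard_le_ncard hsub (Set.toFinite _)).trans ?_
      exact (Set.ncard_insert_le _ _).trans (by rw [Set.ncard_singleton])
    · by_cases hwl : w ∈ l
      · rw [hearly w hwl]; exact h.early2 w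
      · have : early H' r' w = ∅ := by
          ext u
          constructor
          · rintro ⟨h1, -⟩
            rcases (hadj _ _).mp h1 with h2 | ⟨h2, -⟩ | ⟨-, h2 | h2⟩
            · exact absurd (h.supp _ _ h2) hwl
            · exact absurd h2 hw
            · exact absurd (h2 ▸ ha) hwl
            · exact absurd (h2 ▸ hc) hwl
          · intro h1; exact absurd h1 (Set.notMem_empty _)
        rw [this, Set.ncard_empty]
        omega
  · intro u w w' h1 h2 h3 h4
    by_cases huv : u = v
    · subst huv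
      rcases hnbv w h1 with rfl | rfl
      · rcases hnbv w' h2 with rfl | rfl
        · omega
        · exact hF.g1 h3
      · rcases hnbv w' h2 with rfl | rfl
        · exact hF.g1' h3
        · omega
    · have hul : u ∈ l := by
        rcases (hadj _ _).mp h1 with h5 | ⟨h5, -⟩ | ⟨-, h5 | h5⟩
        · exact h.supp _ _ h5
        · exact absurd h5 huv
        · exact h5 ▸ ha
        · exact h5 ▸ hc
      obtain ⟨k1, k2⟩ := hold u w huv h1 (h3.trans h4) hul
      obtain ⟨k3, k4⟩ := hold u w' huv h2 h4 hul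
      have hwl := h.supp _ _ k1.symm
      have hwl' := h.supp _ _ k3.symm
      rw [hrl (hne hwl), hrl (hne hwl')] at h3
      exact hgood w w' hwl hwl' (h.good u w w' k1 k3 h3 k4)
  · intro f hf
    rcases Multiset.mem_cons.mp hf with rfl | hf
    · refine ⟨hF.m1, hF.m2, hF.m3, List.mem_cons_self, hF.a1, hF.a2, hadjc.symm, hadja,
        hF.g1, hF.g1', ?_, ?_⟩
      · intro _; exact hgv b hface.a1.symm hface.a2
      · intro h1
        simp only [hrv] at h1
        have := hlt' b hface.m2
        omega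
    · rcases Multiset.mem_cons.mp hf with rfl | hf
      · refine ⟨hF.m1, List.mem_cons_self, hF.m3, hF.m4, hadja.symm, hadjc, hF.a3, hF.a4,
          hF.g1, hF.g1', ?_, ?_⟩
        · intro h1
          simp only [hrv] at h1
          have := hlt' d hface.m4
          omega
        · intro _; exact hgv d hface.a4 hface.a3.symm
      · exact hfold f (h.face f (Multiset.mem_cons_of_mem hf))

lemma inv_rotate {n : ℕ} {H : SimpleGraph (Fin n)} {r : Fin n → ℕ} {l : List (Fin n)}
    {F : Multiset (Fin n × Fin n × Fin n × Fin n)} (a b c d : Fin n)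
    (h : Inv H r l ((a, b, c, d) ::ₘ F)) : Inv H r l ((b, c, d, a) ::ₘ F) := by
  refine ⟨h.lt, h.inj, h.supp, h.early2, h.good, ?_⟩
  intro f hf
  rcases Multiset.mem_cons.mp hf with rfl | hf
  · have h0 := h.face _ (Multiset.mem_cons_self _ _)
    exact ⟨h0.m2, h0.m3, h0.m4, h0.m1, h0.a2, h0.a3, h0.a4, h0.a1, h0.g2, h0.g2', h0.g1', h0.g1⟩
  · exact h.face f (Multiset.mem_cons_of_mem hf)

lemma inv_base {n : ℕ} (a b c d : Fin n) (h : [a, b, c, d].Nodup) :
    ∃ r, Inv (SimpleGraph.fromEdgeSet {s(a, b), s(b, c), s(c, d), s(d, a)}) r [d, c, b, a]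
        {(a, b, c, d), (a, b, c, d)} := by
  simp only [List.nodup_cons, List.mem_cons, List.not_mem_nil, or_false, not_or,
    List.nodup_nil, not_false_eq_true, and_true] at h
  obtain ⟨⟨hab, hac, had⟩, ⟨hbc, hbd⟩, hcd⟩ := h
  set H : SimpleGraph (Fin n) :=
    SimpleGraph.fromEdgeSet {s(a, b), s(b, c), s(c, d), s(d, a)} with hH
  set r : Fin n → ℕ := fun x => if x = a then 0 else if x = b then 1 else if x = c then 2 else 3
    with hr
  have ra : r a = 0 := by simp [hr]
  have rb : r b = 1 := by simp [hr, Ne.symm hab]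
  have rc : r c = 2 := by simp [hr, Ne.symm hac, Ne.symm hbc]
  have rd : r d = 3 := by simp [hr, Ne.symm had, Ne.symm hbd, Ne.symm hcd]
  have hadj : ∀ x y, H.Adj x y ↔ ((x = a ∧ y = b) ∨ (x = b ∧ y = a) ∨ (x = b ∧ y = c) ∨
      (x = c ∧ y = b) ∨ (x = c ∧ y = d) ∨ (x = d ∧ y = c) ∨ (x = d ∧ y = a) ∨
      (x = a ∧ y = d)) := by
    intro x y
    rw [hH, SimpleGraph.fromEdgeSet_adj]
    simp only [Set.mem_insert_iff, Set.mem_singleton_iff, Sym2.eq_iff]
    constructor
    · rintro ⟨(h | h) | (h | h) | (h | h) | (h | h), -⟩ <;> simp [h]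
    · rintro (⟨rfl, rfl⟩ | ⟨rfl, rfl⟩ | ⟨rfl, rfl⟩ | ⟨rfl, rfl⟩ | ⟨rfl, rfl⟩ | ⟨rfl, rfl⟩ |
        ⟨rfl, rfl⟩ | ⟨rfl, rfl⟩)
      · exact ⟨by simp, hab⟩
      · exact ⟨by simp, Ne.symm hab⟩
      · exact ⟨by simp, hbc⟩
      · exact ⟨by simp, Ne.symm hbc⟩
      · exact ⟨by simp, hcd⟩
      · exact ⟨by simp, Ne.symm hcd⟩
      · exact ⟨by simp, Ne.symm had⟩
      · exact ⟨by simp, had⟩
  -- earlier neighbours
  have ea : early H r a ⊆ ∅ := by
    rintro u ⟨h1, h2⟩
    rw [ra] at h2
    omega
  have eb : early H r b ⊆ {a} := by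
    rintro u ⟨h1, h2⟩
    rcases (hadj _ _).mp h1 with h3 | h3 | h3 | h3 | h3 | h3 | h3 | h3 <;> obtain ⟨h4, rfl⟩ := h3
    · exact absurd h4.symm hab
    · exact rfl
    · rw [rb, rc] at h2; omega
    · exact absurd h4 hbc
    · exact absurd h4 hbc
    · exact absurd h4 hbd
    · exact absurd h4 hbd
    · exact absurd h4.symm hab
  have ec : early H r c ⊆ {b} := by
    rintro u ⟨h1, h2⟩
    rcases (hadj _ _).mp h1 with h3 | h3 | h3 | h3 | h3 | h3 | h3 | h3 <;> obtain ⟨h4, rfl⟩ := h3
    · exact rfl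
    · exact absurd h4.symm hbc
    · exact absurd h4.symm hbc
    · exact rfl
    · rw [rc, rd] at h2; omega
    · exact absurd h4 hcd
    · exact absurd h4 hcd
    · exact absurd h4.symm hac
  have ed : early H r d ⊆ {c, a} := by
    rintro u ⟨h1, h2⟩
    rcases (hadj _ _).mp h1 with h3 | h3 | h3 | h3 | h3 | h3 | h3 | h3 <;> obtain ⟨h4, rfl⟩ := h3
    · exact absurd h4.symm had
    · exact Or.inr rfl
    · exact Or.inl rfl
    · exact absurd h4.symm hcd
    · exact absurd h4.symm hcd
    · exact Or.inl rfl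
    · exact Or.inr rfl
    · exact absurd h4.symm had
  have hgc : ∀ w, GoodPair H r w c := by
    intro w
    left
    exact (Set.ncard_le_ncard ec (Set.toFinite _)).trans (by rw [Set.ncard_singleton])
  have hgb : ∀ w, GoodPair H r w b := by
    intro w
    left
    exact (Set.ncard_le_ncard eb (Set.toFinite _)).trans (by rw [Set.ncard_singleton])
  have hgbd : GoodPair H r b d := by
    right
    intro u h1 h2
    rcases ed ⟨h1, h2⟩ with rfl | rfl
    · exact (hadj _ _).mpr (by simp)
    · exact (hadj _ _).mpr (by simp)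
  have hsupp : ∀ v w, H.Adj v w → v = a ∨ v = b ∨ v = c ∨ v = d := by
    intro v w h1
    rcases (hadj _ _).mp h1 with h3 | h3 | h3 | h3 | h3 | h3 | h3 | h3 <;> obtain ⟨rfl, -⟩ := h3
    all_goals simp
  have hf : FaceOK H r [d, c, b, a] (a, b, c, d) := by
    refine ⟨by simp, by simp, by simp, by simp, ?_, ?_, ?_, ?_, ?_, ?_, ?_, ?_⟩
    · exact (hadj _ _).mpr (by simp)
    · exact (hadj _ _).mpr (by simp)
    · exact (hadj _ _).mpr (by simp)
    · exact (hadj _ _).mpr (by simp)
    · intro _; exact hgc a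
    · intro h1; simp only [ra, rc] at h1; omega
    · intro _; exact hgbd
    · intro h1; simp only [rb, rd] at h1; omega
  refine ⟨r, ?_, ?_, ?_, ?_, ?_, ?_⟩
  · intro v hv
    simp only [hr, List.length_cons, List.length_nil]
    split_ifs <;> omega
  · intro v hv w hw he
    simp only [List.mem_cons, List.not_mem_nil, or_false] at hv hw
    rcases hv with rfl | rfl | rfl | rfl <;> rcases hw with rfl | rfl | rfl | rfl <;>
      first
      | rfl
      | (simp only [ra, rb, rc, rd] at he; omega)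
  · intro v w h1
    rcases hsupp v w h1 with rfl | rfl | rfl | rfl <;> simp
  · intro v
    by_cases hva : v = a
    · subst hva
      have := Set.ncard_le_ncard ea (Set.toFinite _)
      rw [Set.ncard_empty] at this
      omega
    by_cases hvb : v = b
    · subst hvb
      have := Set.ncard_le_ncard eb (Set.toFinite _)
      rw [Set.ncard_singleton] at this
      omega
    by_cases hvc : v = c
    · subst hvc
      have := Set.ncard_le_ncard ec (Set.toFinite _)
      rw [Set.ncard_singleton] at this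
      omega
    by_cases hvd : v = d
    · subst hvd
      refine (Set.ncard_le_ncard ed (Set.toFinite _)).trans ?_
      exact (Set.ncard_insert_le _ _).trans (by rw [Set.ncard_singleton])
    · have : early H r v ⊆ ∅ := by
        rintro u ⟨h1, -⟩
        rcases hsupp v u h1 with h | h | h | h
        · exact hva h
        · exact hvb h
        · exact hvc h
        · exact hvd h
      have := Set.ncard_le_ncard this (Set.toFinite _)
      rw [Set.ncard_empty] at this
      omega
  · intro v w w' h1 h2 h3 h4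
    have hw' := hsupp w' v h2.symm
    rcases hw' with rfl | rfl | rfl | rfl
    · rw [ra] at h3; omega
    · exact hgb w
    · exact hgc w
    · rw [rd] at h4
      rcases hsupp v w h1 with rfl | rfl | rfl | rfl
      · rw [ra] at h4; omega
      · rw [rb] at h4; omega
      · rw [rc] at h4; omega
      · rw [rd] at h4; omega
  · intro f hf'
    have : f = (a, b, c, d) := by simpa using hf'
    rw [this]
    exact hf

theorem Stacked.exists_inv {n : ℕ} {l : List (Fin n)} {H : SimpleGraph (Fin n)}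
    {F : Multiset (Fin n × Fin n × Fin n × Fin n)} (h : Stacked l H F) : ∃ r, Inv H r l F := by
  induction h with
  | base a b c d h => exact inv_base a b c d h
  | insert a b c d v _ hv ih =>
    obtain ⟨r, hr⟩ := ih
    exact ⟨_, inv_step a b c d v hr hv⟩
  | rotate a b c d _ ih =>
    obtain ⟨r, hr⟩ := ih
    exact ⟨r, inv_rotate a b c d hr⟩

/-- the ordering of a stacked quadrangulation -/
theorem Stacked.exists_order {n : ℕ} {l : List (Fin n)} {H : SimpleGraph (Fin n)}
    {F : Multiset (Fin n × Fin n × Fin n × Fin n)} (h : Stacked l H F) (hl : ∀ v, v ∈ l) :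
    ∃ r : Fin n → ℕ, Function.Injective r ∧ (∀ v, (early H r v).ncard ≤ 2) ∧
      ∀ v w w', H.Adj v w → H.Adj v w' → r w < r w' → r w' < r v → GoodPair H r w w' := by
  obtain ⟨r, hr⟩ := h.exists_inv
  exact ⟨r, fun v w hvw => hr.inj v (hl v) w (hl w) hvw, hr.early2, hr.good⟩

end Pool.Agent.Helper12.LP3
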